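import Pool.Agent.Q230.TS.Red

/-!
The colouring of the digraph given by a satisfying assignment is not synchronizing.
-/

set_option autoImplicit false

namespace Pool.Agent.NPC.Q230TS

/-- a satisfying assignment `τ`, with a true literal `c j` in every clause `j` -/
structure Sat (m : ℕ) (oc : ℕ → Bool × ℕ) (τ : ℕ → Bool) (c : ℕ → ℕ) : Prop where
  one : 1 ≤ m
  bd : ∀ k < 3 * m, (oc k).2 < 3 * m
  lt : ∀ j < m, c j < 3
  tr : ∀ j < m, τ (oc (3 * j + c j)).2 = (oc (3 * j + c j)).1

/-- the selected occurrences -/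
def sel (c : ℕ → ℕ) (k : ℕ) : Bool := decide (k % 3 = c (k / 3))

/-- is the vertex at position `p` of level `l` coloured the other way round -/
def chi (m : ℕ) (oc : ℕ → Bool × ℕ) (τ : ℕ → Bool) (c : ℕ → ℕ) (l p : ℕ) : Bool :=
  if l < m then false
  else if l = m then (if p < 4 then false else !decide (c (p - 4) = 0))
  else if l = m + 1 then
    (if p < 4 then false else if (p - 4) % 3 = 1 then decide (c ((p - 4) / 3) = 2) else false)
  else if l = m + 2 then (if p < 4 then false else !(oc (p - 4)).1)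
  else if l = m + 3 then
    (if p < 3 then false else if p = 3 then true
      else if (p - 4) % 2 = 0 then !τ (oc ((p - 4) / 2)).2 else (oc ((p - 4) / 2)).1)
  else if l = m + 4 then
    (if p = 0 then false else if p < 4 then true
      else if (p - 4) % 3 = 0 then τ ((p - 4) / 3)
      else if (p - 4) % 3 = 1 then
        (if sel c ((p - 4) / 3) then (oc ((p - 4) / 3)).1 else !τ (oc ((p - 4) / 3)).2)
      else (if sel c ((p - 4) / 3) then !(oc ((p - 4) / 3)).1 else (oc ((p - 4) / 3)).1))
  else decide (p = 1)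

/-- the colouring -/
def colr (m : ℕ) (oc : ℕ → Bool × ℕ) (τ : ℕ → Bool) (c : ℕ → ℕ) : Dig :=
  (List.range (nv m)).map (fun v =>
    if chi m oc τ c (v / wd m) (v % wd m) then [g1 m oc v, g0 m oc v] else [g0 m oc v, g1 m oc v])

/-- the pairs of positions of level `l` which are kept apart -/
def GP (m : ℕ) (oc : ℕ → Bool × ℕ) (τ : ℕ → Bool) (c : ℕ → ℕ) (l p q : ℕ) : Prop :=
  (1 ≤ l ∧ l ≤ m ∧ ∃ i < l, p = 4 + i ∧ q = 0) ∨
  (l = m + 1 ∧ ∃ j < m, (p = 4 + 3 * j ∧ q = if c j = 0 then 0 else 1) ∨
    (p = 5 + 3 * j ∧ q = if c j = 0 then 1 else 0)) ∨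
  (l = m + 2 ∧ ((p = 2 ∧ q = 1) ∨ ∃ k < 3 * m, p = 4 + k ∧ q = if sel c k then 0 else 1)) ∨
  (l = m + 3 ∧ ((p = 3 ∧ q = 2) ∨ ∃ k < 3 * m,
    (p = 4 + 2 * k ∧ q = if sel c k then (if (oc k).1 then 0 else 1) else 2) ∨
    (p = 5 + 2 * k ∧ q = if sel c k then (if (oc k).1 then 1 else 0) else 2))) ∨
  (l = m + 4 ∧ p < wd m ∧ q < wd m ∧ chi m oc τ c (m + 4) p ≠ chi m oc τ c (m + 4) q) ∨
  (l = m + 5 ∧ p = 0 ∧ q = 1)

section

variable {m : ℕ} {oc : ℕ → Bool × ℕ} {τ : ℕ → Bool} {c : ℕ → ℕ}

theorem GP.ne {l p : ℕ} (h : GP m oc τ c l p p) : False := by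
  rcases h with ⟨_, _, i, _, h1, h2⟩ | ⟨_, j, _, ⟨h1, h2⟩ | ⟨h1, h2⟩⟩ |
    ⟨_, ⟨h1, h2⟩ | ⟨k, _, h1, h2⟩⟩ | ⟨_, ⟨h1, h2⟩ | ⟨k, _, ⟨h1, h2⟩ | ⟨h1, h2⟩⟩⟩ | ⟨_, _, _, h⟩ |
    ⟨_, h1, h2⟩
  · omega
  · split_ifs at h2 <;> omega
  · split_ifs at h2 <;> omega
  · omega
  · split_ifs at h2 <;> omega
  · omega
  · split_ifs at h2 <;> omega
  · split_ifs at h2 <;> omega
  · exact h rfl
  · omega

theorem GP.lt {l p q : ℕ} (h : GP m oc τ c l p q) : p < wd m ∧ q < wd m := by
  have hw : wd m = 9 * m + 4 := rfl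
  rcases h with ⟨_, _, i, _, h1, h2⟩ | ⟨_, j, _, ⟨h1, h2⟩ | ⟨h1, h2⟩⟩ |
    ⟨_, ⟨h1, h2⟩ | ⟨k, _, h1, h2⟩⟩ | ⟨_, ⟨h1, h2⟩ | ⟨k, _, ⟨h1, h2⟩ | ⟨h1, h2⟩⟩⟩ | ⟨_, ha, hb, h⟩ |
    ⟨_, h1, h2⟩
  · omega
  · split_ifs at h2 <;> omega
  · split_ifs at h2 <;> omega
  · omega
  · split_ifs at h2 <;> omega
  · omega
  · split_ifs at h2 <;> omega
  · split_ifs at h2 <;> omega
  · exact ⟨ha, hb⟩
  · omega

theorem colr_isColoring : IsColoring (inst m oc) (colr m oc τ c) := by
  refine ⟨by unfold colr; rw [inst_length]; simp, fun v hv => ?_⟩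
  rw [inst_length] at hv
  rw [inst_getD oc hv]
  unfold colr
  rw [List.getD_eq_getElem _ _ (by simpa using hv)]
  simp only [List.getElem_map, List.getElem_range]
  split_ifs
  · exact List.Perm.swap _ _ _
  · exact List.Perm.refl _

/-- the position reached -/
def sp (m : ℕ) (oc : ℕ → Bool × ℕ) (τ : ℕ → Bool) (c : ℕ → ℕ) (l p a : ℕ) : ℕ :=
  if chi m oc τ c l p then (if a = 0 then (nx m oc l p).2 else (nx m oc l p).1)
  else (if a = 0 then (nx m oc l p).1 else (nx m oc l p).2)

theorem getD_pair (a b : ℕ) (x : ℕ) : [a, b].getD 0 x = a ∧ [a, b].getD 1 x = b := ⟨rfl, rfl⟩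

theorem row_colr {v : ℕ} (hv : v < nv m) : (colr m oc τ c).getD v [] =
    if chi m oc τ c (v / wd m) (v % wd m) then [g1 m oc v, g0 m oc v] else
      [g0 m oc v, g1 m oc v] := by
  unfold colr
  rw [List.getD_eq_getElem _ _ (by simpa using hv)]
  simp only [List.getElem_map, List.getElem_range]

theorem step_colr {l p a : ℕ} (hl : l < m + 5) (hp : p < wd m) (ha : a < 2) :
    step (colr m oc τ c) (vx m l p) a = vx m (l + 1) (cp m (sp m oc τ c l p a)) := by
  have hv := vx_lt (m := m) (l := l) (by omega) hp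
  have ha2 : a = 0 ∨ a = 1 := by omega
  unfold step sp
  rw [row_colr hv, vx_div hp, vx_mod hp, g0_vx oc hl hp, g1_vx oc hl hp]
  rcases ha2 with rfl | rfl <;> cases chi m oc τ c l p <;> rfl

theorem step_colr_last {p a : ℕ} (hp : p < wd m) (ha : a < 2) :
    step (colr m oc τ c) (vx m (m + 5) p) a =
      if chi m oc τ c (m + 5) p then (if a = 0 then vx m 1 4 else vx m 0 0)
      else (if a = 0 then vx m 0 0 else vx m 1 4) := by
  have hv := vx_lt (m := m) (l := m + 5) (by omega) hp
  have ha2 : a = 0 ∨ a = 1 := by omega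
  unfold step
  rw [row_colr hv, vx_div hp, vx_mod hp, g0_last oc hp, g1_last oc hp]
  rcases ha2 with rfl | rfl <;> cases chi m oc τ c (m + 5) p <;> rfl

theorem sp_eq {l p a x y : ℕ} {b : Bool} (h : chi m oc τ c l p = b) (e : nx m oc l p = (x, y)) :
    sp m oc τ c l p a = if b then (if a = 0 then y else x) else (if a = 0 then x else y) := by
  unfold sp
  rw [h, e]

theorem chi_lt {l p : ℕ} (h : l < m) : chi m oc τ c l p = false := by
  unfold chi; rw [if_pos h]

theorem chi_0 {p : ℕ} : chi m oc τ c m p = if p < 4 then false else !decide (c (p - 4) = 0) := by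
  unfold chi; rw [if_neg (by omega), if_pos rfl]

theorem chi_1 {p : ℕ} : chi m oc τ c (m + 1) p =
    if p < 4 then false else if (p - 4) % 3 = 1 then decide (c ((p - 4) / 3) = 2) else false := by
  unfold chi; rw [if_neg (by omega), if_neg (by omega), if_pos rfl]

theorem chi_2 {p : ℕ} : chi m oc τ c (m + 2) p = if p < 4 then false else !(oc (p - 4)).1 := by
  unfold chi; rw [if_neg (by omega), if_neg (by omega), if_neg (by omega), if_pos rfl]

theorem chi_3 {p : ℕ} : chi m oc τ c (m + 3) p = if p < 3 then false else if p = 3 then true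
      else if (p - 4) % 2 = 0 then !τ (oc ((p - 4) / 2)).2 else (oc ((p - 4) / 2)).1 := by
  unfold chi
  rw [if_neg (by omega), if_neg (by omega), if_neg (by omega), if_neg (by omega), if_pos rfl]

theorem chi_4 {p : ℕ} : chi m oc τ c (m + 4) p = if p = 0 then false else if p < 4 then true
      else if (p - 4) % 3 = 0 then τ ((p - 4) / 3)
      else if (p - 4) % 3 = 1 then
        (if sel c ((p - 4) / 3) then (oc ((p - 4) / 3)).1 else !τ (oc ((p - 4) / 3)).2)
      else (if sel c ((p - 4) / 3) then !(oc ((p - 4) / 3)).1 else (oc ((p - 4) / 3)).1) := by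
  unfold chi
  rw [if_neg (by omega), if_neg (by omega), if_neg (by omega), if_neg (by omega),
    if_neg (by omega), if_pos rfl]

theorem chi_5 {p : ℕ} : chi m oc τ c (m + 5) p = decide (p = 1) := by
  unfold chi
  rw [if_neg (by omega), if_neg (by omega), if_neg (by omega), if_neg (by omega),
    if_neg (by omega), if_neg (by omega)]

theorem nx_lt {l p : ℕ} (h : l < m) (h0 : 1 ≤ l) :
    nx m oc l p = if p = l + 3 then (p, p + 1) else (p, p) := by
  unfold nx; rw [if_neg (by omega), if_pos h]

theorem nx_0 {p : ℕ} (hm : 1 ≤ m) :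
    nx m oc m p = if p < 4 then (0, 1) else (4 + 3 * (p - 4), 5 + 3 * (p - 4)) := by
  unfold nx; rw [if_neg (by omega), if_neg (by omega), if_pos rfl]

theorem nx_1 {p : ℕ} : nx m oc (m + 1) p =
    if p = 0 then (0, 1) else if p = 1 then (1, 1) else if (p - 4) % 3 = 0 then (p, 2)
      else (p, p + 1) := by
  unfold nx; rw [if_neg (by omega), if_neg (by omega), if_neg (by omega), if_pos rfl]

theorem nx_2 {p : ℕ} : nx m oc (m + 2) p =
    if p = 0 then (0, 1) else if p = 1 then (2, 2) else if p = 2 then (3, 3)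
      else (4 + 2 * (p - 4), 5 + 2 * (p - 4)) := by
  unfold nx
  rw [if_neg (by omega), if_neg (by omega), if_neg (by omega), if_neg (by omega), if_pos rfl]

theorem nx_3 {p : ℕ} : nx m oc (m + 3) p =
    if p = 0 then (0, 0) else if p = 1 then (1, 1) else if p < 4 then (0, 1)
      else if (p - 4) % 2 = 0 then (4 + 3 * (oc ((p - 4) / 2)).2, 5 + 3 * ((p - 4) / 2))
      else (if (oc ((p - 4) / 2)).1 then 0 else 1, 6 + 3 * ((p - 4) / 2)) := by
  unfold nx
  rw [if_neg (by omega), if_neg (by omega), if_neg (by omega), if_neg (by omega),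
    if_neg (by omega), if_pos rfl]

theorem nx_4 {p : ℕ} : nx m oc (m + 4) p = (0, 1) := by
  unfold nx
  rw [if_neg (by omega), if_neg (by omega), if_neg (by omega), if_neg (by omega),
    if_neg (by omega), if_neg (by omega)]

/-- the pair of positions after reading `a` -/
theorem GP.next (hS : Sat m oc τ c) {l p q : ℕ} (h : GP m oc τ c l p q) (hl : l < m + 5) {a : ℕ}
    (ha : a < 2) : GP m oc τ c (l + 1) (cp m (sp m oc τ c l p a)) (cp m (sp m oc τ c l q a)) ∨
      GP m oc τ c (l + 1) (cp m (sp m oc τ c l q a)) (cp m (sp m oc τ c l p a)) := by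
  have hw : wd m = 9 * m + 4 := rfl
  have hone := hS.one
  have ha2 : a = 0 ∨ a = 1 := by omega
  have hc1 : ∀ x, x < wd m → cp m x = x := fun x hx => cp_eq hx
  rcases h with ⟨h1, h2, i, hi, rfl, rfl⟩ | ⟨rfl, j, hj, ⟨rfl, rfl⟩ | ⟨rfl, rfl⟩⟩ |
    ⟨rfl, ⟨rfl, rfl⟩ | ⟨k, hk, rfl, rfl⟩⟩ | ⟨rfl, ⟨rfl, rfl⟩ | ⟨k, hk, ⟨rfl, rfl⟩ | ⟨rfl, rfl⟩⟩⟩ |
    ⟨rfl, hp, hq, h⟩ | ⟨rfl, h1, h2⟩
  · -- selection
    rcases Nat.lt_or_ge l m with h3 | h3
    · have e0 : sp m oc τ c l 0 a = 0 := by
        rw [sp_eq (chi_lt h3) (nx_lt h3 h1 |>.trans (if_neg (by omega)))]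
        simp
      left; left
      refine ⟨by omega, by omega, ?_⟩
      rw [e0, hc1 0 (by omega)]
      by_cases h4 : i = l - 1
      · have e1 : sp m oc τ c l (4 + i) a = if a = 0 then 4 + i else 4 + i + 1 := by
          rw [sp_eq (chi_lt h3) (nx_lt h3 h1 |>.trans (if_pos (by omega)))]
          simp
        rw [e1]
        rcases ha2 with rfl | rfl
        · exact ⟨i, by omega, by rw [if_pos rfl, hc1 _ (by omega)], rfl⟩
        · exact ⟨i + 1, by omega, by rw [if_neg (by omega), hc1 _ (by omega)]; omega, rfl⟩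
      · have e1 : sp m oc τ c l (4 + i) a = 4 + i := by
          rw [sp_eq (chi_lt h3) (nx_lt h3 h1 |>.trans (if_neg (by omega)))]
          simp
        rw [e1]
        exact ⟨i, by omega, by rw [hc1 _ (by omega)], rfl⟩
    · have h4 : l = m := by omega
      subst h4
      have e0 : sp l oc τ c l 0 a = a := by
        rw [sp_eq (chi_0.trans (if_pos (by omega))) ((nx_0 hone).trans (if_pos (by omega)))]
        rcases ha2 with rfl | rfl <;> simp
      have e1 : sp l oc τ c l (4 + i) a = if c i = 0 then (if a = 0 then 4 + 3 * i else 5 + 3 * i)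
          else (if a = 0 then 5 + 3 * i else 4 + 3 * i) := by
        rw [sp_eq (chi_0.trans (if_neg (by omega))) ((nx_0 hone).trans (if_neg (by omega))),
          show 4 + i - 4 = i by omega]
        by_cases hc : c i = 0 <;> simp [hc]
      left; right; left
      refine ⟨rfl, i, hi, ?_⟩
      rw [e0, e1, hc1 a (by omega)]
      by_cases hc : c i = 0
      · simp only [if_pos hc]
        rcases ha2 with rfl | rfl
        · left; exact ⟨by rw [if_pos rfl, hc1 _ (by omega)], rfl⟩
        · right; exact ⟨by rw [if_neg (by omega), hc1 _ (by omega)], rfl⟩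
      · simp only [if_neg hc]
        rcases ha2 with rfl | rfl
        · right; exact ⟨by rw [if_pos rfl, hc1 _ (by omega)], rfl⟩
        · left; exact ⟨by rw [if_neg (by omega), hc1 _ (by omega)], rfl⟩
  · -- level m+1, P
    have e0 : sp m oc τ c (m + 1) 0 a = a := by
      rw [sp_eq (chi_1.trans (if_pos (by omega))) (nx_1.trans (if_pos rfl))]
      rcases ha2 with rfl | rfl <;> simp
    have e00 : sp m oc τ c (m + 1) 1 a = 1 := by
      rw [sp_eq (chi_1.trans (if_pos (by omega)))
        (nx_1.trans ((if_neg (by omega)).trans (if_pos rfl)))]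
      simp
    have e1 : sp m oc τ c (m + 1) (4 + 3 * j) a = if a = 0 then 4 + 3 * j else 2 := by
      rw [sp_eq (chi_1.trans ((if_neg (by omega)).trans (if_neg (by omega))))
        (nx_1.trans ((if_neg (by omega)).trans ((if_neg (by omega)).trans (if_pos (by omega)))))]
      simp
    have hs0 : sel c (3 * j) = decide (c j = 0) := by
      unfold sel
      rw [show 3 * j % 3 = 0 by omega, show 3 * j / 3 = j by omega]
      apply decide_eq_decide.2
      exact eq_comm
    left; right; right; left
    refine ⟨rfl, ?_⟩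
    rw [e1]
    by_cases hc : c j = 0
    · rw [if_pos hc, e0, hc1 a (by omega)]
      rcases ha2 with rfl | rfl
      · right
        refine ⟨3 * j, by omega, by rw [if_pos rfl, hc1 _ (by omega)], ?_⟩
        rw [hs0, decide_eq_true hc, if_pos rfl]
      · left
        exact ⟨by rw [if_neg (by omega), hc1 _ (by omega)], rfl⟩
    · rw [if_neg hc, e00, hc1 1 (by omega)]
      rcases ha2 with rfl | rfl
      · right
        refine ⟨3 * j, by omega, by rw [if_pos rfl, hc1 _ (by omega)], ?_⟩
        rw [hs0, decide_eq_false hc, if_neg (by simp)]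
      · left
        exact ⟨by rw [if_neg (by omega), hc1 _ (by omega)], rfl⟩
  · -- level m+1, c'
    have e0 : sp m oc τ c (m + 1) 0 a = a := by
      rw [sp_eq (chi_1.trans (if_pos (by omega))) (nx_1.trans (if_pos rfl))]
      rcases ha2 with rfl | rfl <;> simp
    have e00 : sp m oc τ c (m + 1) 1 a = 1 := by
      rw [sp_eq (chi_1.trans (if_pos (by omega)))
        (nx_1.trans ((if_neg (by omega)).trans (if_pos rfl)))]
      simp
    have e1 : sp m oc τ c (m + 1) (5 + 3 * j) a = if c j = 2 then (if a = 0 then 6 + 3 * j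
        else 5 + 3 * j) else (if a = 0 then 5 + 3 * j else 6 + 3 * j) := by
      rw [sp_eq (chi_1.trans ((if_neg (by omega)).trans (if_pos (by omega))))
        (nx_1.trans ((if_neg (by omega)).trans ((if_neg (by omega)).trans (if_neg (by omega))))),
        show (5 + 3 * j - 4) / 3 = j by omega, show 5 + 3 * j + 1 = 6 + 3 * j by omega]
      by_cases hc : c j = 2 <;> simp [hc]
    have hs1 : sel c (3 * j + 1) = decide (c j = 1) := by
      unfold sel
      rw [show (3 * j + 1) % 3 = 1 by omega, show (3 * j + 1) / 3 = j by omega]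
      apply decide_eq_decide.2
      exact eq_comm
    have hs2 : sel c (3 * j + 2) = decide (c j = 2) := by
      unfold sel
      rw [show (3 * j + 2) % 3 = 2 by omega, show (3 * j + 2) / 3 = j by omega]
      apply decide_eq_decide.2
      exact eq_comm
    left; right; right; left
    refine ⟨rfl, Or.inr ?_⟩
    rw [e1]
    have hcj := hS.lt j hj
    have h3 : c j = 0 ∨ c j = 1 ∨ c j = 2 := by omega
    rcases h3 with hc | hc | hc
    · rw [if_pos hc, e00, hc1 1 (by omega), if_neg (by omega)]
      rcases ha2 with rfl | rfl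
      · refine ⟨3 * j + 1, by omega, by rw [if_pos rfl, hc1 _ (by omega)]; omega, ?_⟩
        rw [hs1, hc, if_neg (by simp)]
      · refine ⟨3 * j + 2, by omega, by rw [if_neg (by omega), hc1 _ (by omega)]; omega, ?_⟩
        rw [hs2, hc, if_neg (by simp)]
    · rw [if_neg (show ¬ c j = 2 by omega), if_neg (show ¬ c j = 0 by omega), e0, hc1 a (by omega)]
      rcases ha2 with rfl | rfl
      · refine ⟨3 * j + 1, by omega, by rw [if_pos rfl, hc1 _ (by omega)]; omega, ?_⟩
        rw [hs1, hc, if_pos (by simp)]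
      · refine ⟨3 * j + 2, by omega, by rw [if_neg (by omega), hc1 _ (by omega)]; omega, ?_⟩
        rw [hs2, hc, if_neg (by simp)]
    · rw [if_pos hc, if_neg (show ¬ c j = 0 by omega), e0, hc1 a (by omega)]
      rcases ha2 with rfl | rfl
      · refine ⟨3 * j + 2, by omega, by rw [if_pos rfl, hc1 _ (by omega)]; omega, ?_⟩
        rw [hs2, hc, if_pos (by simp)]
      · refine ⟨3 * j + 1, by omega, by rw [if_neg (by omega), hc1 _ (by omega)]; omega, ?_⟩
        rw [hs1, hc, if_neg (by simp)]
  · -- level m+2, Q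
    have e0 : sp m oc τ c (m + 2) 2 a = 3 := by
      rw [sp_eq (chi_2.trans (if_pos (by omega)))
        (nx_2.trans ((if_neg (by omega)).trans ((if_neg (by omega)).trans (if_pos rfl))))]
      simp
    have e1 : sp m oc τ c (m + 2) 1 a = 2 := by
      rw [sp_eq (chi_2.trans (if_pos (by omega)))
        (nx_2.trans ((if_neg (by omega)).trans (if_pos rfl)))]
      simp
    left; right; right; right; left
    rw [e0, e1, hc1 3 (by omega), hc1 2 (by omega)]
    exact ⟨rfl, Or.inl ⟨rfl, rfl⟩⟩
  · -- level m+2, A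
    have e1 : sp m oc τ c (m + 2) 1 a = 2 := by
      rw [sp_eq (chi_2.trans (if_pos (by omega)))
        (nx_2.trans ((if_neg (by omega)).trans (if_pos rfl)))]
      simp
    have e0 : sp m oc τ c (m + 2) 0 a = a := by
      rw [sp_eq (chi_2.trans (if_pos (by omega))) (nx_2.trans (if_pos rfl))]
      rcases ha2 with rfl | rfl <;> simp
    have e2 : sp m oc τ c (m + 2) (4 + k) a = if (oc k).1 then (if a = 0 then 4 + 2 * k
        else 5 + 2 * k) else (if a = 0 then 5 + 2 * k else 4 + 2 * k) := by
      rw [sp_eq (chi_2.trans (if_neg (by omega)))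
        (nx_2.trans ((if_neg (by omega)).trans ((if_neg (by omega)).trans (if_neg (by omega))))),
        show 4 + k - 4 = k by omega]
      cases (oc k).1 <;> simp
    left; right; right; right; left
    refine ⟨rfl, Or.inr ⟨k, hk, ?_⟩⟩
    have g0' := hc1 0 (by omega)
    have g1' := hc1 1 (by omega)
    have g2' := hc1 2 (by omega)
    have g4' := hc1 (4 + 2 * k) (by omega)
    have g5' := hc1 (5 + 2 * k) (by omega)
    rw [e2]
    cases hs : sel c k <;> cases ho : (oc k).1 <;> rcases ha2 with rfl | rfl <;>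
      simp only [Bool.false_eq_true, if_true, if_false, one_ne_zero, e0, e1, g0', g1', g2', g4',
        g5', and_true, and_self, true_or, or_true]
  · -- level m+3, q
    have e0 : sp m oc τ c (m + 3) 3 a = if a = 0 then 1 else 0 := by
      rw [sp_eq (chi_3.trans ((if_neg (by omega)).trans (if_pos rfl)))
        (nx_3.trans ((if_neg (by omega)).trans ((if_neg (by omega)).trans (if_pos (by omega)))))]
      simp
    have e1 : sp m oc τ c (m + 3) 2 a = if a = 0 then 0 else 1 := by
      rw [sp_eq (chi_3.trans (if_pos (by omega)))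
        (nx_3.trans ((if_neg (by omega)).trans ((if_neg (by omega)).trans (if_pos (by omega)))))]
      simp
    left; right; right; right; right; left
    have k0 : chi m oc τ c (m + 4) 0 = false := chi_4.trans (if_pos rfl)
    have k1 : chi m oc τ c (m + 4) 1 = true := chi_4.trans ((if_neg (by omega)).trans
      (if_pos (by omega)))
    rw [e0, e1]
    rcases ha2 with rfl | rfl
    · rw [if_pos rfl, if_pos rfl, hc1 1 (by omega), hc1 0 (by omega), k0, k1]
      exact ⟨rfl, by omega, by omega, by simp⟩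
    · rw [if_neg (by omega), if_neg (by omega), hc1 1 (by omega), hc1 0 (by omega), k0, k1]
      exact ⟨rfl, by omega, by omega, by simp⟩
  · -- level m+3, u
    have hb := hS.bd k hk
    have e0 : sp m oc τ c (m + 3) 0 a = 0 := by
      rw [sp_eq (chi_3.trans (if_pos (by omega))) (nx_3.trans (if_pos rfl))]
      simp
    have e1 : sp m oc τ c (m + 3) 1 a = 1 := by
      rw [sp_eq (chi_3.trans (if_pos (by omega)))
        (nx_3.trans ((if_neg (by omega)).trans (if_pos rfl)))]
      simp
    have e2 : sp m oc τ c (m + 3) 2 a = a := by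
      rw [sp_eq (chi_3.trans (if_pos (by omega)))
        (nx_3.trans ((if_neg (by omega)).trans ((if_neg (by omega)).trans (if_pos (by omega)))))]
      rcases ha2 with rfl | rfl <;> simp
    have e3 : sp m oc τ c (m + 3) (4 + 2 * k) a = if τ (oc k).2 then (if a = 0 then
        4 + 3 * (oc k).2 else 5 + 3 * k) else (if a = 0 then 5 + 3 * k else 4 + 3 * (oc k).2) := by
      rw [sp_eq (chi_3.trans ((if_neg (by omega)).trans ((if_neg (by omega)).trans
          (if_pos (by omega)))))
        (nx_3.trans ((if_neg (by omega)).trans ((if_neg (by omega)).trans ((if_neg (by omega)).trans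
          (if_pos (by omega)))))), show (4 + 2 * k - 4) / 2 = k by omega]
      cases τ (oc k).2 <;> simp
    have k0 : chi m oc τ c (m + 4) 0 = false := chi_4.trans (if_pos rfl)
    have k1 : chi m oc τ c (m + 4) 1 = true := chi_4.trans ((if_neg (by omega)).trans
      (if_pos (by omega)))
    have kz : chi m oc τ c (m + 4) (4 + 3 * (oc k).2) = τ (oc k).2 := by
      rw [chi_4, if_neg (by omega), if_neg (by omega), if_pos (by omega),
        show (4 + 3 * (oc k).2 - 4) / 3 = (oc k).2 by omega]
    have kt : chi m oc τ c (m + 4) (5 + 3 * k) = if sel c k then (oc k).1 else !τ (oc k).2 := by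
      rw [chi_4, if_neg (by omega), if_neg (by omega), if_neg (by omega), if_pos (by omega),
        show (5 + 3 * k - 4) / 3 = k by omega]
    left; right; right; right; right; left
    refine ⟨rfl, cp_lt _ _, cp_lt _ _, ?_⟩
    rw [e3]
    have hsel : sel c k = true → τ (oc k).2 = (oc k).1 := by
      intro hs
      have h1 : k % 3 = c (k / 3) := by unfold sel at hs; exact of_decide_eq_true hs
      have := hS.tr (k / 3) (by omega)
      rwa [← h1, show 3 * (k / 3) + k % 3 = k by omega] at this
    have g0' := hc1 0 (by omega)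
    have g1' := hc1 1 (by omega)
    have g4' := hc1 (4 + 3 * (oc k).2) (by omega)
    have g5' := hc1 (5 + 3 * k) (by omega)
    generalize sel c k = b1 at *
    generalize τ (oc k).2 = b2 at *
    generalize (oc k).1 = b3 at *
    cases b1 <;> cases b2 <;> cases b3 <;> rcases ha2 with rfl | rfl <;>
      simp only [Bool.false_eq_true, if_true, if_false, one_ne_zero, e0, e1, e2, g0', g1', g4',
        g5', k0, k1, kz, kt, Bool.not_true, Bool.not_false, ne_eq, reduceCtorEq,
        not_false_eq_true, forall_const, false_imp_iff] at hsel ⊢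
  · -- level m+3, r
    have e0 : sp m oc τ c (m + 3) 0 a = 0 := by
      rw [sp_eq (chi_3.trans (if_pos (by omega))) (nx_3.trans (if_pos rfl))]
      simp
    have e1 : sp m oc τ c (m + 3) 1 a = 1 := by
      rw [sp_eq (chi_3.trans (if_pos (by omega)))
        (nx_3.trans ((if_neg (by omega)).trans (if_pos rfl)))]
      simp
    have e2 : sp m oc τ c (m + 3) 2 a = a := by
      rw [sp_eq (chi_3.trans (if_pos (by omega)))
        (nx_3.trans ((if_neg (by omega)).trans ((if_neg (by omega)).trans (if_pos (by omega)))))]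
      rcases ha2 with rfl | rfl <;> simp
    have e3 : sp m oc τ c (m + 3) (5 + 2 * k) a = if (oc k).1 then (if a = 0 then
        6 + 3 * k else 0) else (if a = 0 then 1 else 6 + 3 * k) := by
      rw [sp_eq (chi_3.trans ((if_neg (by omega)).trans ((if_neg (by omega)).trans
          (if_neg (by omega)))))
        (nx_3.trans ((if_neg (by omega)).trans ((if_neg (by omega)).trans ((if_neg (by omega)).trans
          (if_neg (by omega)))))), show (5 + 2 * k - 4) / 2 = k by omega]
      cases (oc k).1 <;> simp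
    have k0 : chi m oc τ c (m + 4) 0 = false := chi_4.trans (if_pos rfl)
    have k1 : chi m oc τ c (m + 4) 1 = true := chi_4.trans ((if_neg (by omega)).trans
      (if_pos (by omega)))
    have kt : chi m oc τ c (m + 4) (6 + 3 * k) = if sel c k then !(oc k).1 else (oc k).1 := by
      rw [chi_4, if_neg (by omega), if_neg (by omega), if_neg (by omega), if_neg (by omega),
        show (6 + 3 * k - 4) / 3 = k by omega]
    left; right; right; right; right; left
    refine ⟨rfl, cp_lt _ _, cp_lt _ _, ?_⟩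
    rw [e3]
    have g0' := hc1 0 (by omega)
    have g1' := hc1 1 (by omega)
    have g6' := hc1 (6 + 3 * k) (by omega)
    generalize sel c k = b1 at *
    generalize (oc k).1 = b3 at *
    cases b1 <;> cases b3 <;> rcases ha2 with rfl | rfl <;>
      simp only [Bool.false_eq_true, if_true, if_false, one_ne_zero, e0, e1, e2, g0', g1', g6',
        k0, k1, kt, Bool.not_true, Bool.not_false, ne_eq, reduceCtorEq,
        not_false_eq_true]
  · -- level m+4
    have e : ∀ x, sp m oc τ c (m + 4) x a = if chi m oc τ c (m + 4) x then (if a = 0 then 1 else 0)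
        else (if a = 0 then 0 else 1) := fun x => sp_eq rfl nx_4
    rw [e p, e q]
    have key : ∀ b b' : Bool, b ≠ b' → (GP m oc τ c (m + 4 + 1)
        (cp m (if b = true then (if a = 0 then 1 else 0) else (if a = 0 then 0 else 1)))
        (cp m (if b' = true then (if a = 0 then 1 else 0) else (if a = 0 then 0 else 1))) ∨
        GP m oc τ c (m + 4 + 1)
        (cp m (if b' = true then (if a = 0 then 1 else 0) else (if a = 0 then 0 else 1)))
        (cp m (if b = true then (if a = 0 then 1 else 0) else (if a = 0 then 0 else 1)))) := by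
      have g01 : GP m oc τ c (m + 4 + 1) 0 1 := Or.inr (Or.inr (Or.inr (Or.inr (Or.inr
        ⟨rfl, rfl, rfl⟩))))
      intro b b' hne
      rcases ha2 with rfl | rfl <;> cases b <;> cases b' <;>
        simp only [ne_eq, not_true_eq_false, reduceCtorEq, not_false_eq_true, Bool.false_eq_true,
          if_true, if_false, one_ne_zero, hc1 0 (show (0 : ℕ) < wd m by omega),
          hc1 1 (show 1 < wd m by omega)] at hne ⊢
      · exact Or.inl g01
      · exact Or.inr g01
      · exact Or.inr g01
      · exact Or.inl g01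
    exact key _ _ h
  · omega

/-- the set of pairs that are kept apart -/
def PP (m : ℕ) (oc : ℕ → Bool × ℕ) (τ : ℕ → Bool) (c : ℕ → ℕ) (v w : ℕ) : Prop :=
  v < nv m ∧ w < nv m ∧ (v / wd m ≠ w / wd m ∨ (v / wd m = w / wd m ∧
    (GP m oc τ c (v / wd m) (v % wd m) (w % wd m) ∨ GP m oc τ c (v / wd m) (w % wd m) (v % wd m))))

theorem PP.symm {v w : ℕ} (h : PP m oc τ c v w) : PP m oc τ c w v := by
  obtain ⟨h1, h2, h3⟩ := h
  refine ⟨h2, h1, ?_⟩
  rcases h3 with h3 | ⟨h3, h4⟩
  · exact Or.inl (Ne.symm h3)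
  · refine Or.inr ⟨h3.symm, ?_⟩
    rw [← h3]
    exact h4.symm

theorem pp_of_GP {l p q : ℕ} (hl : l ≤ m + 5) (hp : p < wd m) (hq : q < wd m)
    (h : GP m oc τ c l p q ∨ GP m oc τ c l q p) : PP m oc τ c (vx m l p) (vx m l q) := by
  refine ⟨vx_lt hl hp, vx_lt hl hq, Or.inr ⟨by rw [vx_div hp, vx_div hq], ?_⟩⟩
  rw [vx_div hp, vx_mod hp, vx_mod hq]
  exact h

theorem pp_of_ne {l l' p q : ℕ} (hl : l ≤ m + 5) (hl' : l' ≤ m + 5) (hne : l ≠ l')
    (hp : p < wd m) (hq : q < wd m) : PP m oc τ c (vx m l p) (vx m l' q) :=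
  ⟨vx_lt hl hp, vx_lt hl' hq, Or.inl (by rw [vx_div hp, vx_div hq]; exact hne)⟩

theorem last_mem {p a : ℕ} (hp : p < wd m) (ha : a < 2) :
    step (colr m oc τ c) (vx m (m + 5) p) a = vx m 0 0 ∨
      step (colr m oc τ c) (vx m (m + 5) p) a = vx m 1 4 := by
  rw [step_colr_last hp ha]
  split_ifs <;> simp

theorem PP.next_ne (hS : Sat m oc τ c) {l l' p q a : ℕ} (hl : l ≤ m + 5) (hl' : l' < l)
    (hp : p < wd m) (hq : q < wd m) (ha : a < 2) :
    PP m oc τ c (step (colr m oc τ c) (vx m l p) a) (step (colr m oc τ c) (vx m l' q) a) := by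
  have hw : wd m = 9 * m + 4 := rfl
  have hone := hS.one
  rw [step_colr (l := l') (by omega) hq ha]
  rcases Nat.lt_or_ge l (m + 5) with h1 | h1
  · rw [step_colr h1 hp ha]
    exact pp_of_ne (by omega) (by omega) (by omega) (cp_lt _ _) (cp_lt _ _)
  · have h2 : l = m + 5 := by omega
    subst h2
    rcases last_mem (oc := oc) (τ := τ) (c := c) hp ha with h | h <;> rw [h]
    · exact pp_of_ne (by omega) (by omega) (by omega) (by omega) (cp_lt _ _)
    · rcases Nat.eq_zero_or_pos l' with h3 | h3
      · subst h3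
        have e : sp m oc τ c 0 q a = 0 := by
          have : nx m oc 0 q = (0, 0) := by unfold nx; rw [if_pos rfl]
          rw [sp_eq (chi_lt (by omega)) this]
          simp
        rw [e, cp_eq (by omega)]
        refine pp_of_GP (by omega) (by omega) (by omega) (Or.inl (Or.inl ?_))
        exact ⟨by omega, hone, 0, by omega, rfl, rfl⟩
      · exact pp_of_ne (by omega) (by omega) (by omega) (by omega) (cp_lt _ _)

theorem PP.next (hS : Sat m oc τ c) {v w a : ℕ} (h : PP m oc τ c v w) (ha : a < 2) :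
    PP m oc τ c (step (colr m oc τ c) v a) (step (colr m oc τ c) w a) := by
  have hw : wd m = 9 * m + 4 := rfl
  have hone := hS.one
  obtain ⟨h1, h2, h3⟩ := h
  have e1 := eq_vx m v
  have e2 := eq_vx m w
  have p1 := Nat.mod_lt v (wd_pos m)
  have p2 := Nat.mod_lt w (wd_pos m)
  have l1 := lev_le h1
  have l2 := lev_le h2
  rcases h3 with h3 | ⟨h3, h4⟩
  · rcases Nat.lt_or_gt_of_ne h3 with h5 | h5
    · apply PP.symm
      rw [e1, e2]
      exact PP.next_ne hS l2 h5 p2 p1 ha
    · rw [e1, e2]
      exact PP.next_ne hS l1 h5 p1 p2 ha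
  · rw [← h3] at e2
    generalize v / wd m = l at *
    generalize v % wd m = p at *
    generalize w % wd m = q at *
    subst e1 e2
    rcases Nat.lt_or_ge l (m + 5) with h5 | h5
    · rw [step_colr h5 p1 ha, step_colr h5 p2 ha]
      refine pp_of_GP (by omega) (cp_lt _ _) (cp_lt _ _) ?_
      rcases h4 with h4 | h4
      · exact h4.next hS h5 ha
      · exact (h4.next hS h5 ha).symm
    · have h6 : l = m + 5 := by omega
      subst h6
      have k : ∀ p q, GP m oc τ c (m + 5) p q → p = 0 ∧ q = 1 := by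
        intro p q h
        rcases h with h | h | h | h | h | h
        · omega
        · omega
        · omega
        · omega
        · omega
        · exact h.2
      have key : PP m oc τ c (step (colr m oc τ c) (vx m (m + 5) 0) a)
          (step (colr m oc τ c) (vx m (m + 5) 1) a) := by
        rw [step_colr_last (by omega) ha, step_colr_last (by omega) ha, chi_5, chi_5]
        have ha2 : a = 0 ∨ a = 1 := by omega
        rcases ha2 with rfl | rfl
        · simp only [zero_ne_one, decide_false, Bool.false_eq_true, if_false, if_true,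
            decide_true]
          exact pp_of_ne (by omega) (by omega) (by omega) (by omega) (by omega)
        · simp only [zero_ne_one, one_ne_zero, decide_false, Bool.false_eq_true, if_false, if_true,
            decide_true]
          exact pp_of_ne (by omega) (by omega) (by omega) (by omega) (by omega)
      rcases h4 with h4 | h4
      · obtain ⟨rfl, rfl⟩ := k _ _ h4
        exact key
      · obtain ⟨rfl, rfl⟩ := k _ _ h4
        exact key.symm

theorem PP.ne {v : ℕ} (h : PP m oc τ c v v) : False := by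
  obtain ⟨_, _, h3⟩ := h
  rcases h3 with h3 | ⟨_, h4⟩
  · exact h3 rfl
  · rcases h4 with h4 | h4
    · exact h4.ne
    · exact h4.ne

theorem not_sync_colr (hS : Sat m oc τ c) : ¬ Sync 2 (colr m oc τ c) := by
  have hw : wd m = 9 * m + 4 := rfl
  have hone := hS.one
  rw [sync_iff (inst_reg hone oc) colr_isColoring, inst_length]
  push Not
  refine ⟨vx m 0 0, vx_lt (by omega) (by omega), vx m 1 0, vx_lt (by omega) (by omega), ?_⟩
  exact not_merge_of_closed (PP m oc τ c) (fun p hp => hp.ne) (fun p q h a ha => h.next hS ha)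
    (pp_of_ne (by omega) (by omega) (by omega) (by omega) (by omega))

end

/-- correctness of the reduction -/
theorem correct {m : ℕ} {oc : ℕ → Bool × ℕ} (hm : 1 ≤ m) (hb : ∀ k < 3 * m, (oc k).2 < 3 * m) :
    (∃ τ : ℕ → Bool, ∀ j < m, ∃ k < 3, τ (oc (3 * j + k)).2 = (oc (3 * j + k)).1) ↔
      ¬ TotSync 2 (inst m oc) := by
  constructor
  · rintro ⟨τ, hτ⟩ h
    have : ∀ j, ∃ k, j < m → k < 3 ∧ τ (oc (3 * j + k)).2 = (oc (3 * j + k)).1 := by
      intro j
      by_cases hj : j < m
      · obtain ⟨k, hk⟩ := hτ j hj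
        exact ⟨k, fun _ => hk⟩
      · exact ⟨0, fun h => absurd h hj⟩
    choose c hc using this
    have hS : Sat m oc τ c := ⟨hm, hb, fun j hj => (hc j hj).1, fun j hj => (hc j hj).2⟩
    exact not_sync_colr hS (h _ colr_isColoring)
  · intro h
    unfold TotSync at h
    push Not at h
    obtain ⟨A, hA, hs⟩ := h
    exact sat_of_not_sync hm hb hA hs

end Pool.Agent.NPC.Q230TS
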