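import Pool.Agent.NPC.Classes

/-!
Synchronizing colourings of out-regular digraphs: definitions and the pair criterion.
-/

set_option autoImplicit false

namespace Pool.Agent.NPC.Q230TS

/-- A digraph given by the lists of the heads of the edges leaving the vertices `0, 1, …`
(with multiplicities, loops allowed). -/
abbrev Dig : Type := List (List ℕ)

/-- `G` is a `k`-out-regular digraph (`k ≥ 1`, at least one vertex) -/
def OutReg (k : ℕ) (G : Dig) : Prop :=
  1 ≤ k ∧ G ≠ [] ∧ ∀ l ∈ G, l.length = k ∧ ∀ x ∈ l, x < G.length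

/-- `A` is a colouring of `G`: at every vertex the edges leaving it are matched with the letters
`0, …, k-1`; entry `a` of row `v` of `A` is the head of the edge that leaves `v` and carries the
letter `a` -/
def IsColoring (G A : Dig) : Prop :=
  A.length = G.length ∧ ∀ v < G.length, (A.getD v []).Perm (G.getD v [])

/-- one step of the automaton -/
def step (A : Dig) (s a : ℕ) : ℕ := (A.getD s []).getD a 0

/-- the state reached from `s` by reading `w` -/
def run (A : Dig) (s : ℕ) (w : List ℕ) : ℕ := w.foldl (step A) s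

/-- the automaton `A` with the letters `0, …, k-1` is synchronizing -/
def Sync (k : ℕ) (A : Dig) : Prop :=
  ∃ w : List ℕ, (∀ a ∈ w, a < k) ∧ ∃ t, ∀ v < A.length, run A v w = t

/-- `G` is totally synchronizing: every colouring yields a synchronizing automaton -/
def TotSync (k : ℕ) (G : Dig) : Prop := ∀ A, IsColoring G A → Sync k A

/-- TOTSYNC -/
def TOTSYNC (G : Dig) : Prop := ∃ k, OutReg k G ∧ TotSync k G

/-- a word merges `p` and `q` -/
def Merge (k : ℕ) (A : Dig) (p q : ℕ) : Prop :=
  ∃ w : List ℕ, (∀ a ∈ w, a < k) ∧ run A p w = run A q w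

theorem run_append (A : Dig) (s : ℕ) (v w : List ℕ) : run A s (v ++ w) = run A (run A s v) w := by
  unfold run
  rw [List.foldl_append]

theorem run_cons (A : Dig) (s a : ℕ) (w : List ℕ) : run A s (a :: w) = run A (step A s a) w := rfl

theorem run_lt {k : ℕ} {G A : Dig} (hG : OutReg k G) (hA : IsColoring G A) :
    ∀ (w : List ℕ) (s : ℕ), (∀ a ∈ w, a < k) → s < G.length → run A s w < G.length := by
  intro w
  induction w with
  | nil => intro s _ hs; exact hs
  | cons a w ih =>
    intro s hw hs
    rw [run_cons]
    refine ih _ (fun b hb => hw b (List.mem_cons_of_mem _ hb)) ?_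
    have hp := hA.2 s hs
    have hm : G.getD s [] ∈ G := by
      rw [List.getD_eq_getElem _ _ hs]; exact List.getElem_mem _
    obtain ⟨h1, h2⟩ := hG.2.2 _ hm
    have ha : a < (A.getD s []).length := by
      rw [hp.length_eq, h1]; exact hw a List.mem_cons_self
    unfold step
    rw [List.getD_eq_getElem _ _ ha]
    exact h2 _ (hp.mem_iff.1 (List.getElem_mem _))

theorem merge_all {k : ℕ} {A : Dig} (h : ∀ p < A.length, ∀ q < A.length, Merge k A p q)
    (hlt : ∀ (w : List ℕ) (s : ℕ), (∀ a ∈ w, a < k) → s < A.length → run A s w < A.length) :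
    ∀ n, n ≤ A.length → ∃ w : List ℕ, (∀ a ∈ w, a < k) ∧ ∃ t, ∀ v < n, run A v w = t := by
  intro n
  induction n with
  | zero => intro _; exact ⟨[], by simp, 0, by simp⟩
  | succ n ih =>
    intro hn
    obtain ⟨w, hw, t, ht⟩ := ih (by omega)
    rcases Nat.eq_zero_or_pos n with h0 | h0
    · subst h0
      refine ⟨[], by simp, 0, fun v hv => ?_⟩
      have : v = 0 := by omega
      subst this; rfl
    · have h1 : t < A.length := by
        rw [← ht 0 h0]; exact hlt w 0 hw (by omega)
      obtain ⟨u, hu, hue⟩ := h t h1 (run A n w) (hlt w n hw (by omega))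
      refine ⟨w ++ u, ?_, run A t u, fun v hv => ?_⟩
      · intro a ha
        rcases List.mem_append.1 ha with ha | ha
        · exact hw a ha
        · exact hu a ha
      · rw [run_append]
        rcases Nat.lt_or_ge v n with h2 | h2
        · rw [ht v h2]
        · have : v = n := by omega
          subst this
          exact hue.symm

/-- the pair criterion -/
theorem sync_iff {k : ℕ} {G A : Dig} (hG : OutReg k G) (hA : IsColoring G A) :
    Sync k A ↔ ∀ p < G.length, ∀ q < G.length, Merge k A p q := by
  have hl : A.length = G.length := hA.1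
  constructor
  · rintro ⟨w, hw, t, ht⟩ p hp q hq
    exact ⟨w, hw, by rw [ht p (by omega), ht q (by omega)]⟩
  · intro h
    obtain ⟨w, hw, t, ht⟩ := merge_all (k := k) (A := A) (by rw [hl]; exact h)
      (by rw [hl]; exact fun w s => run_lt hG hA w s) A.length le_rfl
    exact ⟨w, hw, t, ht⟩

theorem Merge.cons {k : ℕ} {A : Dig} {p q a : ℕ} (ha : a < k)
    (h : Merge k A (step A p a) (step A q a)) : Merge k A p q := by
  obtain ⟨w, hw, he⟩ := h
  refine ⟨a :: w, ?_, by rw [run_cons, run_cons, he]⟩
  intro b hb
  rcases List.mem_cons.1 hb with rfl | hb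
  · exact ha
  · exact hw b hb

theorem Merge.refl (k : ℕ) (A : Dig) (p : ℕ) : Merge k A p p := ⟨[], by simp, rfl⟩

theorem Merge.symm {k : ℕ} {A : Dig} {p q : ℕ} (h : Merge k A p q) : Merge k A q p := by
  obtain ⟨w, hw, he⟩ := h
  exact ⟨w, hw, he.symm⟩

/-- a closed set of pairs off the diagonal cannot be merged -/
theorem not_merge_of_closed {k : ℕ} {A : Dig} (P : ℕ → ℕ → Prop) (hne : ∀ p, ¬ P p p)
    (hcl : ∀ p q, P p q → ∀ a < k, P (step A p a) (step A q a)) {p q : ℕ} (h : P p q) :
    ¬ Merge k A p q := by
  rintro ⟨w, hw, he⟩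
  have key : ∀ (w : List ℕ) (p q : ℕ), (∀ a ∈ w, a < k) → P p q → P (run A p w) (run A q w) := by
    intro w
    induction w with
    | nil => intro p q _ h; exact h
    | cons a w ih =>
      intro p q hw h
      rw [run_cons, run_cons]
      exact ih _ _ (fun b hb => hw b (List.mem_cons_of_mem _ hb)) (hcl p q h a
        (hw a List.mem_cons_self))
  have := key w p q hw h
  rw [he] at this
  exact hne _ this

end Pool.Agent.NPC.Q230TS
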