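import Pool.Agent.Q230.TS.Col
import Pool.Agent.H642R2.TGPoly

/-!
Running time of the reduction, and membership in coNP.
-/

set_option autoImplicit false

namespace Pool.Agent.NPC.Q230TS

open Pool.Agent.NPC.TG (Cl cl ocf poly_ocf poly_mulc poly_addc poly_subc poly_divc poly_modc
  sat_iff cl_mem)

/-- the reduction -/
def red (φ : List Cl) : Dig := inst φ.length (ocf φ)

theorem var_lt {φ : List Cl} (hb : Bounded3 φ) : ∀ i, i < 3 * φ.length →
    (ocf φ i).2 < 3 * φ.length := by
  intro i hi
  obtain ⟨h2, h3, h4⟩ := hb _ (cl_mem (φ := φ) (j := i / 3) (by omega))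
  unfold ocf
  split_ifs
  · exact h2
  · exact h3
  · exact h4

theorem red_correct {φ : List Cl} (hb : Bounded3 φ) (hne : φ ≠ []) :
    SAT3 φ ↔ ¬ TotSync 2 (red φ) := by
  rw [sat_iff]
  exact correct (List.length_pos_iff.2 hne) (var_lt hb)

section

variable {α : Type} [TEnc α]

theorem poly_wd {m : α → ℕ} (hm : NPC.Poly m) : NPC.Poly (fun a => wd (m a)) :=
  poly_addc (poly_mulc hm 9) 4

theorem poly_cp {m x : α → ℕ} (hm : NPC.Poly m) (hx : NPC.Poly x) :
    NPC.Poly (fun a => cp (m a) (x a)) :=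
  Poly.ite (Poly.decide_lt hx (poly_wd hm)) hx (Poly.const 0)

theorem poly_nx {m l p : α → ℕ} {φ : α → List Cl} (hm : NPC.Poly m) (hφ : NPC.Poly φ)
    (hl : NPC.Poly l) (hp : NPC.Poly p) : NPC.Poly (fun a => nx (m a) (ocf (φ a)) (l a) (p a)) := by
  have hp4 := poly_subc hp 4
  have c : ∀ n : ℕ, NPC.Poly (fun a => decide (p a = n)) := fun n =>
    Poly.decide_eq hp (Poly.const n)
  have hk := poly_divc hp4 2
  have hok := poly_ocf hφ hk
  exact Poly.ite (Poly.decide_eq hl (Poly.const 0)) (Poly.const (0, 0))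
    (Poly.ite (Poly.decide_lt hl hm)
      (Poly.ite (Poly.decide_eq hp (poly_addc hl 3)) (Poly.pair hp (poly_addc hp 1))
        (Poly.pair hp hp))
    (Poly.ite (Poly.decide_eq hl hm)
      (Poly.ite (Poly.decide_lt hp (Poly.const 4)) (Poly.const (0, 1))
        (Poly.pair (Poly.add (Poly.const 4) (poly_mulc hp4 3))
          (Poly.add (Poly.const 5) (poly_mulc hp4 3))))
    (Poly.ite (Poly.decide_eq hl (poly_addc hm 1))
      (Poly.ite (c 0) (Poly.const (0, 1)) (Poly.ite (c 1) (Poly.const (1, 1))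
        (Poly.ite (Poly.decide_eq (poly_modc hp4 3) (Poly.const 0))
          (Poly.pair hp (Poly.const 2)) (Poly.pair hp (poly_addc hp 1)))))
    (Poly.ite (Poly.decide_eq hl (poly_addc hm 2))
      (Poly.ite (c 0) (Poly.const (0, 1)) (Poly.ite (c 1) (Poly.const (2, 2))
        (Poly.ite (c 2) (Poly.const (3, 3))
          (Poly.pair (Poly.add (Poly.const 4) (poly_mulc hp4 2))
            (Poly.add (Poly.const 5) (poly_mulc hp4 2))))))
    (Poly.ite (Poly.decide_eq hl (poly_addc hm 3))
      (Poly.ite (c 0) (Poly.const (0, 0)) (Poly.ite (c 1) (Poly.const (1, 1))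
        (Poly.ite (Poly.decide_lt hp (Poly.const 4)) (Poly.const (0, 1))
          (Poly.ite (Poly.decide_eq (poly_modc hp4 2) (Poly.const 0))
            (Poly.pair (Poly.add (Poly.const 4) (poly_mulc (Poly.snd hok) 3))
              (Poly.add (Poly.const 5) (poly_mulc hk 3)))
            (Poly.pair (Poly.ite (Poly.decide_bool (Poly.fst hok)) (Poly.const 0) (Poly.const 1))
              (Poly.add (Poly.const 6) (poly_mulc hk 3)))))))
      (Poly.const (0, 1)))))))

theorem poly_g0 {m v : α → ℕ} {φ : α → List Cl} (hm : NPC.Poly m) (hφ : NPC.Poly φ)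
    (hv : NPC.Poly v) : NPC.Poly (fun a => g0 (m a) (ocf (φ a)) (v a)) := by
  have hl := Poly.div hv (poly_wd hm)
  have hp := Poly.mod hv (poly_wd hm)
  exact Poly.ite (Poly.decide_lt hl (poly_addc hm 5))
    (Poly.add (Poly.mul (poly_addc hl 1) (poly_wd hm))
      (poly_cp hm (Poly.fst (poly_nx hm hφ hl hp)))) (Poly.const 0)

theorem poly_g1 {m v : α → ℕ} {φ : α → List Cl} (hm : NPC.Poly m) (hφ : NPC.Poly φ)
    (hv : NPC.Poly v) : NPC.Poly (fun a => g1 (m a) (ocf (φ a)) (v a)) := by
  have hl := Poly.div hv (poly_wd hm)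
  have hp := Poly.mod hv (poly_wd hm)
  exact Poly.ite (Poly.decide_lt hl (poly_addc hm 5))
    (Poly.add (Poly.mul (poly_addc hl 1) (poly_wd hm))
      (poly_cp hm (Poly.snd (poly_nx hm hφ hl hp)))) (poly_addc (poly_wd hm) 4)

end

theorem poly_red : NPC.Poly red := by
  have hn : UPoly (fun φ : List Cl => nv φ.length) :=
    UPoly.mul (UPoly.add (UPoly.length Poly.id) (UPoly.const 6))
      (UPoly.add (UPoly.mul (UPoly.const 9) (UPoly.length Poly.id)) (UPoly.const 4))
  refine Poly.map (F := fun (φ : List Cl) v => [g0 φ.length (ocf φ) v, g1 φ.length (ocf φ) v])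
    hn.range ?_
  have h1 : NPC.Poly (fun p : List Cl × ℕ => p.1.length) := Poly.length (Poly.fst Poly.id)
  have h2 : NPC.Poly (fun p : List Cl × ℕ => p.1) := Poly.fst Poly.id
  have h3 : NPC.Poly (fun p : List Cl × ℕ => p.2) := Poly.snd Poly.id
  exact Poly.cons (poly_g0 h1 h2 h3) (Poly.cons (poly_g1 h1 h2 h3) (Poly.const _))

/-- hardness, already for 2-out-regular digraphs -/
theorem hard : HardPr (OutReg 2) (fun G => ¬ TotSync 2 G) :=
  hardPr_SAT3b.trans poly_red (fun _ h => inst_reg (List.length_pos_iff.2 h.2.2) _)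
    (fun _ h => red_correct h.2.1 h.2.2)

/-! ### Membership in coNP -/

/-- the length of the first row -/
def kk (G : Dig) : ℕ := (G.getD 0 []).length

/-- is `G` a `k`-out-regular digraph for some `k ≥ 1` -/
def wf (G : Dig) : Bool :=
  decide (1 ≤ kk G) && (decide (1 ≤ G.length) &&
    G.all (fun l => decide (l.length = kk G) && l.all (fun x => decide (x < G.length))))

theorem wf_iff {G : Dig} : wf G = true ↔ OutReg (kk G) G := by
  unfold wf OutReg
  simp only [Bool.and_eq_true, decide_eq_true_eq, List.all_eq_true]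
  refine and_congr Iff.rfl (and_congr ?_ Iff.rfl)
  rw [Nat.succ_le_iff, List.length_pos_iff]

theorem reg_kk {k : ℕ} {G : Dig} (h : OutReg k G) : k = kk G := by
  obtain ⟨_, h1, h2⟩ := h
  have h3 : 0 < G.length := List.length_pos_iff.2 h1
  have : G.getD 0 [] ∈ G := by rw [List.getD_eq_getElem _ _ h3]; exact List.getElem_mem _
  exact (h2 _ this).1.symm

theorem tot_iff {G : Dig} : TOTSYNC G ↔ OutReg (kk G) G ∧ TotSync (kk G) G := by
  constructor
  · rintro ⟨k, h1, h2⟩
    have := reg_kk h1
    subst this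
    exact ⟨h1, h2⟩
  · rintro ⟨h1, h2⟩
    exact ⟨_, h1, h2⟩

/-- are two lists permutations of each other -/
def isP (l l' : List ℕ) : Bool :=
  decide (l.length = l'.length) &&
    l.all (fun x => decide ((l.filter (fun y => decide (y = x))).length ≤
      (l'.filter (fun y => decide (y = x))).length))

theorem isP_iff {l l' : List ℕ} : isP l l' = true ↔ l.Perm l' := by
  have e : ∀ (l : List ℕ) (x : ℕ), (l.filter (fun y => decide (y = x))).length = l.count x := by
    intro l x
    rw [List.count_eq_length_filter]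
    congr 1
  unfold isP
  simp only [Bool.and_eq_true, decide_eq_true_eq, List.all_eq_true, e]
  constructor
  · rintro ⟨h1, h2⟩
    exact (List.subperm_ext_iff.2 h2).perm_of_length_le h1.ge
  · intro h
    exact ⟨h.length_eq, fun x _ => (h.count_eq x).le⟩

/-- is `A` a colouring of `G` -/
def isCol (G A : Dig) : Bool :=
  decide (A.length = G.length) &&
    (List.range G.length).all (fun v => isP (A.getD v []) (G.getD v []))

theorem isCol_iff {G A : Dig} : isCol G A = true ↔ IsColoring G A := by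
  unfold isCol IsColoring
  simp only [Bool.and_eq_true, decide_eq_true_eq, List.all_eq_true, List.mem_range, isP_iff]

/-- membership of a pair -/
def memP (P : List (ℕ × ℕ)) (x : ℕ × ℕ) : Bool := P.any (fun y => decide (y = x))

theorem memP_iff {P : List (ℕ × ℕ)} {x : ℕ × ℕ} : memP P x = true ↔ x ∈ P := by
  unfold memP
  simp only [List.any_eq_true, decide_eq_true_eq, exists_eq_right]

/-- is `P` a nonempty closed set of pairs of vertices off the diagonal -/
def okP (k : ℕ) (A : Dig) (P : List (ℕ × ℕ)) : Bool :=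
  decide (1 ≤ P.length) && P.all (fun x =>
    (decide (x.1 < A.length) && decide (x.2 < A.length)) && (!decide (x.1 = x.2) &&
      (List.range k).all (fun a => memP P (step A x.1 a, step A x.2 a))))

theorem okP_iff {k : ℕ} {A : Dig} {P : List (ℕ × ℕ)} : okP k A P = true ↔
    P ≠ [] ∧ ∀ x ∈ P, (x.1 < A.length ∧ x.2 < A.length) ∧ x.1 ≠ x.2 ∧
      ∀ a < k, (step A x.1 a, step A x.2 a) ∈ P := by
  unfold okP
  simp only [Bool.and_eq_true, decide_eq_true_eq, List.all_eq_true, List.mem_range, memP_iff,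
    Bool.not_eq_true', decide_eq_false_iff_not]
  rw [Nat.succ_le_iff, List.length_pos_iff]

theorem not_sync_iff {k : ℕ} {G A : Dig} (hG : OutReg k G) (hA : IsColoring G A) :
    ¬ Sync k A ↔ ∃ P : List (ℕ × ℕ), P.length ≤ G.length * G.length ∧ okP k A P = true := by
  classical
  have hl : A.length = G.length := hA.1
  constructor
  · intro h
    rw [sync_iff hG hA] at h
    push Not at h
    obtain ⟨p, hp, q, hq, hpq⟩ := h
    refine ⟨((List.range G.length).flatMap (fun x => (List.range G.length).map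
      (fun y => (x, y)))).filter (fun x => decide (¬ Merge k A x.1 x.2)), ?_, ?_⟩
    · refine (List.length_filter_le _ _).trans (le_of_eq ?_)
      rw [List.length_flatMap]
      simp
    · have hmem : ∀ x : ℕ × ℕ, x ∈ ((List.range G.length).flatMap (fun x =>
          (List.range G.length).map (fun y => (x, y)))).filter
          (fun x => decide (¬ Merge k A x.1 x.2)) ↔
          (x.1 < G.length ∧ x.2 < G.length) ∧ ¬ Merge k A x.1 x.2 := by
        rintro ⟨x, y⟩
        simp only [List.mem_filter, List.mem_flatMap, List.mem_range, List.mem_map,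
          Prod.mk.injEq, decide_eq_true_eq]
        constructor
        · rintro ⟨⟨a, ha, b, hb, rfl, rfl⟩, h⟩
          exact ⟨⟨ha, hb⟩, h⟩
        · rintro ⟨⟨ha, hb⟩, h⟩
          exact ⟨⟨x, ha, y, hb, rfl, rfl⟩, h⟩
      rw [okP_iff]
      constructor
      · exact List.ne_nil_of_mem ((hmem (p, q)).2 ⟨⟨hp, hq⟩, hpq⟩)
      · intro x hx
        rw [hmem] at hx
        obtain ⟨⟨h1, h2⟩, h3⟩ := hx
        refine ⟨⟨by omega, by omega⟩, ?_, ?_⟩
        · intro he
          rw [he] at h3
          exact h3 (Merge.refl _ _ _)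
        · intro a ha
          rw [hmem]
          have r1 := run_lt hG hA [a] x.1 (by simpa using ha) h1
          have r2 := run_lt hG hA [a] x.2 (by simpa using ha) h2
          exact ⟨⟨r1, r2⟩, fun h => h3 (Merge.cons ha h)⟩
  · rintro ⟨P, _, h⟩
    rw [okP_iff] at h
    obtain ⟨h1, h2⟩ := h
    rw [sync_iff hG hA]
    push Not
    obtain ⟨x, hx⟩ := List.exists_mem_of_ne_nil _ h1
    obtain ⟨⟨h3, h4⟩, _, _⟩ := h2 x hx
    refine ⟨x.1, by omega, x.2, by omega, ?_⟩
    refine not_merge_of_closed (fun p q => (p, q) ∈ P) ?_ ?_ hx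
    · intro p hp
      exact (h2 _ hp).2.1 rfl
    · intro p q hpq a ha
      exact (h2 _ hpq).2.2 a ha

/-- the verifier -/
def verify (x : Dig × (Dig × List (ℕ × ℕ))) : Bool :=
  !wf x.1 || (isCol x.1 x.2.1 && okP (kk x.1) x.2.1 x.2.2)

theorem sz_perm {l l' : List ℕ} (h : l.Perm l') : sz l = sz l' := by
  induction h with
  | nil => rfl
  | cons x _ ih => simp only [sz_list_cons, ih]
  | swap x y l => simp only [sz_list_cons]; omega
  | trans _ _ h1 h2 => exact h1.trans h2

theorem sz_col : ∀ {G A : Dig}, A.length = G.length →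
    (∀ v < G.length, (A.getD v []).Perm (G.getD v [])) → sz A = sz G := by
  intro G
  induction G with
  | nil =>
    intro A h1 _
    rw [List.length_nil, List.length_eq_zero_iff] at h1
    rw [h1]
  | cons g G ih =>
    intro A h1 h2
    cases A with
    | nil => simp at h1
    | cons a A =>
      have e1 := sz_perm (h2 0 (by simp))
      simp only [List.getD_cons_zero] at e1
      have e2 : sz A = sz G := ih (by simpa using h1) (fun v hv => by
        have := h2 (v + 1) (by simpa using hv)
        simpa using this)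
      rw [sz_list_cons, sz_list_cons, e1, e2]

theorem not_tot_iff (G : Dig) : ¬ TOTSYNC G ↔ ∃ w : Dig × List (ℕ × ℕ),
    sz w ≤ (Polynomial.C 8 * Polynomial.X ^ 3 + Polynomial.C 8 * Polynomial.X ^ 2 +
      Polynomial.X + Polynomial.C 4).eval (sz G) ∧ verify (G, w) = true := by
  rw [tot_iff, ← wf_iff]
  constructor
  · intro h
    cases hw : wf G
    · refine ⟨([], []), ?_, ?_⟩
      · have : sz (([], []) : Dig × List (ℕ × ℕ)) = 3 := rfl
        rw [this]
        simp only [Polynomial.eval_add, Polynomial.eval_mul, Polynomial.eval_C,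
          Polynomial.eval_pow, Polynomial.eval_X]
        omega
      · unfold verify
        rw [hw]
        rfl
    · have h2 : ¬ TotSync (kk G) G := fun h3 => h ⟨hw, h3⟩
      unfold TotSync at h2
      push Not at h2
      obtain ⟨A, hA, hs⟩ := h2
      obtain ⟨P, hP, hok⟩ := (not_sync_iff (wf_iff.1 hw) hA).1 hs
      refine ⟨(A, P), ?_, ?_⟩
      · have e1 : sz (A, P) = sz A + sz P + 1 := sz_pair A P
        have e2 := sz_col hA.1 hA.2
        have hn := length_lt_sz G
        have e3 : sz P ≤ P.length * (8 * sz G + 4 + 1) + 1 := by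
          apply sz_le_length_mul
          intro x hx
          obtain ⟨⟨h3, h4⟩, _⟩ := (okP_iff.1 hok).2 x hx
          have b1 := sz_nat_le x.1
          have b2 := sz_nat_le x.2
          have c1 := Poly.size_le_self x.1
          have c2 := Poly.size_le_self x.2
          have e4 : sz x = sz x.1 + sz x.2 + 1 := sz_pair x.1 x.2
          have h5 := hA.1
          omega
        simp only [Polynomial.eval_add, Polynomial.eval_mul, Polynomial.eval_C,
          Polynomial.eval_pow, Polynomial.eval_X]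
        rw [e1, e2]
        have h6 : P.length ≤ sz G * sz G := hP.trans (Nat.mul_le_mul hn.le hn.le)
        have h7 : P.length * (8 * sz G + 4 + 1) ≤ sz G * sz G * (8 * sz G + 4 + 1) :=
          Nat.mul_le_mul_right _ h6
        have h8 : sz G * sz G * (8 * sz G + 4 + 1) = 8 * sz G ^ 3 + 5 * sz G ^ 2 := by ring
        have h9 : 5 * sz G ^ 2 ≤ 8 * sz G ^ 2 := by omega
        omega
      · unfold verify
        simp only [Bool.or_eq_true, Bool.and_eq_true]
        exact Or.inr ⟨isCol_iff.2 hA, hok⟩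
  · rintro ⟨⟨A, P⟩, _, h⟩ ⟨h1, h2⟩
    unfold verify at h
    simp only [h1, Bool.not_true, Bool.false_or, Bool.and_eq_true] at h
    obtain ⟨h3, h4⟩ := h
    have hA := isCol_iff.1 h3
    have hP : P.length ≤ G.length * G.length ∨ True := Or.inr trivial
    refine absurd (h2 A hA) ?_
    have h5 := okP_iff.1 h4
    rw [sync_iff (wf_iff.1 h1) hA]
    push Not
    obtain ⟨x, hx⟩ := List.exists_mem_of_ne_nil _ h5.1
    obtain ⟨⟨h6, h7⟩, _, _⟩ := h5.2 x hx
    have hl := hA.1
    refine ⟨x.1, by omega, x.2, by omega, ?_⟩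
    refine not_merge_of_closed (fun p q => (p, q) ∈ P) ?_ ?_ hx
    · intro p hp
      exact (h5.2 _ hp).2.1 rfl
    · intro p q hpq a ha
      exact (h5.2 _ hpq).2.2 a ha

section

variable {α : Type} [TEnc α]

theorem poly_step {A : α → Dig} {s a : α → ℕ} (hA : NPC.Poly A) (hs : NPC.Poly s)
    (ha : NPC.Poly a) : NPC.Poly (fun x => step (A x) (s x) (a x)) :=
  Poly.getD (Poly.getD hA hs (Poly.const _)) ha (Poly.const _)

theorem poly_isP {l l' : α → List ℕ} (hl : NPC.Poly l) (hl' : NPC.Poly l') :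
    NPC.Poly (fun a => isP (l a) (l' a)) := by
  refine Poly.and (Poly.decide_eq (Poly.length hl) (Poly.length hl')) ?_
  refine Poly.all (p := fun a x => decide (((l a).filter (fun y => decide (y = x))).length ≤
      ((l' a).filter (fun y => decide (y = x))).length)) hl ?_
  have key : ∀ {l : α → List ℕ}, NPC.Poly l → NPC.Poly (fun p : α × ℕ =>
      ((l p.1).filter (fun y => decide (y = p.2))).length) := by
    intro l hl
    refine Poly.length ?_
    exact Poly.filter (p := fun (p : α × ℕ) y => decide (y = p.2)) (hl.comp (Poly.fst Poly.id))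
      (Poly.decide_eq (Poly.snd Poly.id) (Poly.snd (Poly.fst Poly.id)))
  exact Poly.decide_le (key hl) (key hl')

theorem poly_memP {P : α → List (ℕ × ℕ)} {x : α → ℕ × ℕ} (hP : NPC.Poly P) (hx : NPC.Poly x) :
    NPC.Poly (fun a => memP (P a) (x a)) :=
  Poly.any (p := fun a y => decide (y = x a)) hP
    (Poly.decide_eq (Poly.snd Poly.id) (hx.comp (Poly.fst Poly.id)))

end

theorem poly_verify : NPC.Poly verify := by
  have hG : NPC.Poly (fun x : Dig × (Dig × List (ℕ × ℕ)) => x.1) := Poly.fst Poly.id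
  have hA : NPC.Poly (fun x : Dig × (Dig × List (ℕ × ℕ)) => x.2.1) := Poly.fst (Poly.snd Poly.id)
  have hP : NPC.Poly (fun x : Dig × (Dig × List (ℕ × ℕ)) => x.2.2) := Poly.snd (Poly.snd Poly.id)
  have hkk : UPoly (fun x : Dig × (Dig × List (ℕ × ℕ)) => kk x.1) :=
    UPoly.length (Poly.getD hG (Poly.const 0) (Poly.const _))
  have hn : UPoly (fun x : Dig × (Dig × List (ℕ × ℕ)) => x.1.length) := UPoly.length hG
  refine Poly.or (Poly.not ?_) (Poly.and ?_ ?_)
  · -- wf
    refine Poly.and (Poly.decide_le (Poly.const 1) hkk.toPoly)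
      (Poly.and (Poly.decide_le (Poly.const 1) hn.toPoly) ?_)
    refine Poly.all (p := fun (x : Dig × (Dig × List (ℕ × ℕ))) (l : List ℕ) =>
      decide (l.length = kk x.1) && l.all (fun y => decide (y < x.1.length))) hG ?_
    refine Poly.and (Poly.decide_eq (Poly.length (Poly.snd Poly.id))
      (hkk.toPoly.comp (Poly.fst Poly.id))) ?_
    exact Poly.all (p := fun (p : (Dig × (Dig × List (ℕ × ℕ))) × List ℕ) y =>
      decide (y < p.1.1.length)) (Poly.snd Poly.id)
      (Poly.decide_lt (Poly.snd Poly.id) (hn.toPoly.comp (Poly.fst (Poly.fst Poly.id))))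
  · -- isCol
    refine Poly.and (Poly.decide_eq (Poly.length hA) hn.toPoly) ?_
    refine Poly.all (p := fun (x : Dig × (Dig × List (ℕ × ℕ))) v =>
      isP (x.2.1.getD v []) (x.1.getD v [])) hn.range ?_
    exact poly_isP (Poly.getD (hA.comp (Poly.fst Poly.id)) (Poly.snd Poly.id) (Poly.const _))
      (Poly.getD (hG.comp (Poly.fst Poly.id)) (Poly.snd Poly.id) (Poly.const _))
  · -- okP
    refine Poly.and (Poly.decide_le (Poly.const 1) (Poly.length hP)) ?_
    refine Poly.all (p := fun (z : Dig × (Dig × List (ℕ × ℕ))) (x : ℕ × ℕ) =>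
      (decide (x.1 < z.2.1.length) && decide (x.2 < z.2.1.length)) && (!decide (x.1 = x.2) &&
      (List.range (kk z.1)).all (fun a => memP z.2.2 (step z.2.1 x.1 a, step z.2.1 x.2 a)))) hP ?_
    have f1 : NPC.Poly (fun p : (Dig × (Dig × List (ℕ × ℕ))) × (ℕ × ℕ) => p.1) := Poly.fst Poly.id
    have x1 : NPC.Poly (fun p : (Dig × (Dig × List (ℕ × ℕ))) × (ℕ × ℕ) => p.2.1) :=
      Poly.fst (Poly.snd Poly.id)
    have x2 : NPC.Poly (fun p : (Dig × (Dig × List (ℕ × ℕ))) × (ℕ × ℕ) => p.2.2) :=
      Poly.snd (Poly.snd Poly.id)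
    have hAl := Poly.length (hA.comp f1)
    refine Poly.and (Poly.and (Poly.decide_lt x1 hAl) (Poly.decide_lt x2 hAl))
      (Poly.and (Poly.not (Poly.decide_eq x1 x2)) ?_)
    refine Poly.all (p := fun (p : (Dig × (Dig × List (ℕ × ℕ))) × (ℕ × ℕ)) a =>
      memP p.1.2.2 (step p.1.2.1 p.2.1 a, step p.1.2.1 p.2.2 a)) (hkk.comp f1).range ?_
    have f2 : NPC.Poly (fun q : ((Dig × (Dig × List (ℕ × ℕ))) × (ℕ × ℕ)) × ℕ => q.1) :=
      Poly.fst Poly.id
    have a2 : NPC.Poly (fun q : ((Dig × (Dig × List (ℕ × ℕ))) × (ℕ × ℕ)) × ℕ => q.2) :=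
      Poly.snd Poly.id
    exact poly_memP ((hP.comp f1).comp f2) (Poly.pair
      (poly_step ((hA.comp f1).comp f2) (x1.comp f2) a2)
      (poly_step ((hA.comp f1).comp f2) (x2.comp f2) a2))

/-- membership in coNP -/
theorem mem : InCoNPP TOTSYNC := inCoNPP_of poly_verify _ not_tot_iff

end Pool.Agent.NPC.Q230TS
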