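import Pool.Agent.Q230.TS.Defs

/-!
The reduction: the digraph of a 3SAT formula.  It is 2-out-regular and has `m + 6` levels of `W`
vertices each; all edges lead to the next level, except that the vertices of the last level have
their edges into the levels `0` and `1`.
-/

set_option autoImplicit false

namespace Pool.Agent.NPC.Q230TS

/-- the width of a level -/
def wd (m : ℕ) : ℕ := 9 * m + 4

/-- a position -/
def cp (m x : ℕ) : ℕ := if x < wd m then x else 0

/-- the positions of the two out-neighbours of the vertex at position `p` of level `l` -/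
def nx (m : ℕ) (oc : ℕ → Bool × ℕ) (l p : ℕ) : ℕ × ℕ :=
  if l = 0 then (0, 0)
  else if l < m then (if p = l + 3 then (p, p + 1) else (p, p))
  else if l = m then (if p < 4 then (0, 1) else (4 + 3 * (p - 4), 5 + 3 * (p - 4)))
  else if l = m + 1 then
    (if p = 0 then (0, 1) else if p = 1 then (1, 1) else if (p - 4) % 3 = 0 then (p, 2)
      else (p, p + 1))
  else if l = m + 2 then
    (if p = 0 then (0, 1) else if p = 1 then (2, 2) else if p = 2 then (3, 3)
      else (4 + 2 * (p - 4), 5 + 2 * (p - 4)))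
  else if l = m + 3 then
    (if p = 0 then (0, 0) else if p = 1 then (1, 1) else if p < 4 then (0, 1)
      else if (p - 4) % 2 = 0 then (4 + 3 * (oc ((p - 4) / 2)).2, 5 + 3 * ((p - 4) / 2))
      else (if (oc ((p - 4) / 2)).1 then 0 else 1, 6 + 3 * ((p - 4) / 2)))
  else (0, 1)

/-- first out-neighbour -/
def g0 (m : ℕ) (oc : ℕ → Bool × ℕ) (v : ℕ) : ℕ :=
  if v / wd m < m + 5 then (v / wd m + 1) * wd m + cp m (nx m oc (v / wd m) (v % wd m)).1 else 0

/-- second out-neighbour -/
def g1 (m : ℕ) (oc : ℕ → Bool × ℕ) (v : ℕ) : ℕ :=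
  if v / wd m < m + 5 then (v / wd m + 1) * wd m + cp m (nx m oc (v / wd m) (v % wd m)).2
  else wd m + 4

/-- the number of vertices -/
def nv (m : ℕ) : ℕ := (m + 6) * wd m

/-- the digraph -/
def inst (m : ℕ) (oc : ℕ → Bool × ℕ) : Dig :=
  (List.range (nv m)).map (fun v => [g0 m oc v, g1 m oc v])

/-- the vertex at position `p` of level `l` -/
def vx (m l p : ℕ) : ℕ := l * wd m + p

theorem wd_pos (m : ℕ) : 0 < wd m := by unfold wd; omega

theorem cp_lt (m x : ℕ) : cp m x < wd m := by
  unfold cp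
  split_ifs with h
  · exact h
  · exact wd_pos m

theorem cp_eq {m x : ℕ} (h : x < wd m) : cp m x = x := if_pos h

theorem vx_div {m l p : ℕ} (hp : p < wd m) : vx m l p / wd m = l := by
  unfold vx
  rw [Nat.mul_comm, Nat.mul_add_div (wd_pos m), Nat.div_eq_of_lt hp, Nat.add_zero]

theorem vx_mod {m l p : ℕ} (hp : p < wd m) : vx m l p % wd m = p := by
  unfold vx
  rw [Nat.mul_comm, Nat.mul_add_mod, Nat.mod_eq_of_lt hp]

theorem vx_lt {m l p : ℕ} (hl : l ≤ m + 5) (hp : p < wd m) : vx m l p < nv m := by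
  unfold vx nv
  have : (l + 1) * wd m ≤ (m + 6) * wd m := Nat.mul_le_mul_right _ (by omega)
  rw [Nat.add_mul, one_mul] at this
  omega

theorem lev_le {m v : ℕ} (hv : v < nv m) : v / wd m ≤ m + 5 := by
  unfold nv at hv
  have := Nat.div_lt_of_lt_mul (by rwa [Nat.mul_comm] at hv : v < wd m * (m + 6))
  omega

theorem eq_vx (m v : ℕ) : v = vx m (v / wd m) (v % wd m) := by
  unfold vx
  rw [Nat.mul_comm]
  exact (Nat.div_add_mod v (wd m)).symm

theorem g0_vx {m : ℕ} (oc : ℕ → Bool × ℕ) {l p : ℕ} (hl : l < m + 5) (hp : p < wd m) :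
    g0 m oc (vx m l p) = vx m (l + 1) (cp m (nx m oc l p).1) := by
  unfold g0
  rw [vx_div hp, vx_mod hp, if_pos hl]
  rfl

theorem g1_vx {m : ℕ} (oc : ℕ → Bool × ℕ) {l p : ℕ} (hl : l < m + 5) (hp : p < wd m) :
    g1 m oc (vx m l p) = vx m (l + 1) (cp m (nx m oc l p).2) := by
  unfold g1
  rw [vx_div hp, vx_mod hp, if_pos hl]
  rfl

theorem g0_last {m : ℕ} (oc : ℕ → Bool × ℕ) {p : ℕ} (hp : p < wd m) :
    g0 m oc (vx m (m + 5) p) = vx m 0 0 := by
  unfold g0
  rw [vx_div hp, if_neg (by omega)]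
  simp [vx]

theorem g1_last {m : ℕ} (oc : ℕ → Bool × ℕ) {p : ℕ} (hp : p < wd m) :
    g1 m oc (vx m (m + 5) p) = vx m 1 4 := by
  unfold g1
  rw [vx_div hp, if_neg (by omega)]
  simp [vx]

theorem g_lt {m : ℕ} (hm : 1 ≤ m) (oc : ℕ → Bool × ℕ) {v : ℕ} (hv : v < nv m) :
    g0 m oc v < nv m ∧ g1 m oc v < nv m := by
  have h4 : 4 < wd m := by unfold wd; omega
  rcases Nat.lt_or_ge (v / wd m) (m + 5) with h | h
  · rw [eq_vx m v, g0_vx oc h (Nat.mod_lt _ (wd_pos m)), g1_vx oc h (Nat.mod_lt _ (wd_pos m))]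
    exact ⟨vx_lt (by omega) (cp_lt _ _), vx_lt (by omega) (cp_lt _ _)⟩
  · have h2 := lev_le hv
    have h3 : v / wd m = m + 5 := by omega
    rw [eq_vx m v, h3, g0_last oc (Nat.mod_lt _ (wd_pos m)), g1_last oc (Nat.mod_lt _ (wd_pos m))]
    exact ⟨vx_lt (by omega) (wd_pos m), vx_lt (by omega) h4⟩

theorem inst_length (m : ℕ) (oc : ℕ → Bool × ℕ) : (inst m oc).length = nv m := by
  unfold inst; simp

theorem inst_getD {m : ℕ} (oc : ℕ → Bool × ℕ) {v : ℕ} (hv : v < nv m) :
    (inst m oc).getD v [] = [g0 m oc v, g1 m oc v] := by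
  unfold inst
  rw [List.getD_eq_getElem _ _ (by simpa using hv)]
  simp

theorem inst_reg {m : ℕ} (hm : 1 ≤ m) (oc : ℕ → Bool × ℕ) : OutReg 2 (inst m oc) := by
  refine ⟨by omega, ?_, ?_⟩
  · intro h
    have h1 := inst_length m oc
    rw [h] at h1
    have h2 : 0 < nv m := by
      have := vx_lt (m := m) (l := 0) (p := 0) (by omega) (wd_pos m)
      omega
    simp at h1
    omega
  · intro l hl
    rw [inst_length]
    unfold inst at hl
    obtain ⟨v, hv, rfl⟩ := List.mem_map.1 hl
    rw [List.mem_range] at hv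
    obtain ⟨h1, h2⟩ := g_lt hm oc hv
    refine ⟨rfl, ?_⟩
    intro x hx
    simp only [List.mem_cons, List.not_mem_nil, or_false] at hx
    rcases hx with rfl | rfl
    · exact h1
    · exact h2

theorem perm_pair {l : List ℕ} {a b : ℕ} (h : l.Perm [a, b]) : l = [a, b] ∨ l = [b, a] := by
  match l, h with
  | [], h => exact absurd h.length_eq (by simp)
  | [x], h => exact absurd h.length_eq (by simp)
  | [x, y], h =>
    have hx : x ∈ [a, b] := h.mem_iff.1 (by simp)
    simp only [List.mem_cons, List.not_mem_nil, or_false] at hx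
    rcases hx with rfl | rfl
    · have := (List.perm_cons x).1 h
      rw [List.perm_singleton] at this
      left; rw [this]
    · have h2 : [x, y].Perm [x, a] := h.trans (List.Perm.swap _ _ _)
      have := (List.perm_cons x).1 h2
      rw [List.perm_singleton] at this
      right; rw [this]
  | x :: y :: z :: l, h => exact absurd h.length_eq (by simp)

/-! ### From a non-synchronizing colouring to an assignment -/

section sound

variable {m : ℕ} {oc : ℕ → Bool × ℕ} {A : Dig}

theorem step_cases (hA : IsColoring (inst m oc) A) {v : ℕ} (hv : v < nv m) :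
    (step A v 0 = g0 m oc v ∧ step A v 1 = g1 m oc v) ∨
      (step A v 0 = g1 m oc v ∧ step A v 1 = g0 m oc v) := by
  have h := hA.2 v (by rw [inst_length]; exact hv)
  rw [inst_getD oc hv] at h
  unfold step
  rcases perm_pair h with h | h
  · rw [h]; exact Or.inl ⟨rfl, rfl⟩
  · rw [h]; exact Or.inr ⟨rfl, rfl⟩

theorem N_step (hA : IsColoring (inst m oc) A) {p q : ℕ} (hp : p < nv m) (hq : q < nv m)
    (h : ¬ Merge 2 A p q) :
    (¬ Merge 2 A (g0 m oc p) (g0 m oc q) ∧ ¬ Merge 2 A (g1 m oc p) (g1 m oc q)) ∨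
    (¬ Merge 2 A (g0 m oc p) (g1 m oc q) ∧ ¬ Merge 2 A (g1 m oc p) (g0 m oc q)) := by
  have h0 : ¬ Merge 2 A (step A p 0) (step A q 0) := fun h' => h (Merge.cons (by omega) h')
  have h1 : ¬ Merge 2 A (step A p 1) (step A q 1) := fun h' => h (Merge.cons (by omega) h')
  rcases step_cases hA hp with ⟨e0, e1⟩ | ⟨e0, e1⟩ <;>
    rcases step_cases hA hq with ⟨f0, f1⟩ | ⟨f0, f1⟩ <;> rw [e0, f0] at h0 <;> rw [e1, f1] at h1
  · exact Or.inl ⟨h0, h1⟩
  · exact Or.inr ⟨h0, h1⟩
  · exact Or.inr ⟨h1, h0⟩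
  · exact Or.inl ⟨h1, h0⟩

/-- the same, for two vertices of one level -/
theorem NL_step (hA : IsColoring (inst m oc) A) {l p q : ℕ} (hl : l < m + 5) (hp : p < wd m)
    (hq : q < wd m) (h : ¬ Merge 2 A (vx m l p) (vx m l q)) {a b a' b' : ℕ}
    (e : nx m oc l p = (a, b)) (e' : nx m oc l q = (a', b')) (ha : a < wd m) (hb : b < wd m)
    (ha' : a' < wd m) (hb' : b' < wd m) :
    (¬ Merge 2 A (vx m (l + 1) a) (vx m (l + 1) a') ∧
      ¬ Merge 2 A (vx m (l + 1) b) (vx m (l + 1) b')) ∨
    (¬ Merge 2 A (vx m (l + 1) a) (vx m (l + 1) b') ∧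
      ¬ Merge 2 A (vx m (l + 1) b) (vx m (l + 1) a')) := by
  have := N_step hA (vx_lt (by omega) hp) (vx_lt (by omega) hq) h
  rw [g0_vx oc hl hp, g0_vx oc hl hq, g1_vx oc hl hp, g1_vx oc hl hq, e, e'] at this
  simp only [cp_eq ha, cp_eq hb, cp_eq ha', cp_eq hb'] at this
  exact this

/-- at the last level but one the colours differ -/
theorem N_color (hA : IsColoring (inst m oc) A) {p q : ℕ} (hp : p < wd m)
    (hq : q < wd m) (h : ¬ Merge 2 A (vx m (m + 4) p) (vx m (m + 4) q)) :
    (step A (vx m (m + 4) p) 0 = vx m (m + 5) 0) ↔ ¬ (step A (vx m (m + 4) q) 0 = vx m (m + 5) 0) := by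
  have h0 : ¬ Merge 2 A (step A (vx m (m + 4) p) 0) (step A (vx m (m + 4) q) 0) :=
    fun h' => h (Merge.cons (by omega) h')
  have hw : 4 < wd m + 0 ∨ True := Or.inr trivial
  have hw0 : 0 < wd m := wd_pos m
  have hw1 : 1 < wd m := by unfold wd; omega
  have e1 : ∀ p, nx m oc (m + 4) p = (0, 1) := by
    intro p
    unfold nx
    rw [if_neg (by omega), if_neg (by omega), if_neg (by omega), if_neg (by omega),
      if_neg (by omega), if_neg (by omega)]
  have e2 : ∀ p, p < wd m → g0 m oc (vx m (m + 4) p) = vx m (m + 5) 0 := by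
    intro p hp
    rw [g0_vx oc (by omega) hp, e1, cp_eq hw0]
  have e3 : ∀ p, p < wd m → g1 m oc (vx m (m + 4) p) = vx m (m + 5) 1 := by
    intro p hp
    rw [g1_vx oc (by omega) hp, e1, cp_eq hw1]
  have hne : vx m (m + 5) 1 ≠ vx m (m + 5) 0 := by unfold vx; omega
  rcases step_cases hA (vx_lt (l := m + 4) (by omega) hp) with ⟨f, _⟩ | ⟨f, _⟩ <;>
    rcases step_cases hA (vx_lt (l := m + 4) (by omega) hq) with ⟨f', _⟩ | ⟨f', _⟩ <;>
    simp only [e2 _ hp, e2 _ hq, e3 _ hp, e3 _ hq] at f f' <;> rw [f, f'] at h0 ⊢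
  · exact absurd (Merge.refl _ _ _) h0
  · simp [hne]
  · simp [hne]
  · exact absurd (Merge.refl _ _ _) h0

theorem not_self {p : ℕ} (h : ¬ Merge 2 A p p) : False := h (Merge.refl _ _ _)

/-- all pairs (option, token) -/
theorem options (hA : IsColoring (inst m oc) A)
    (h : ¬ Merge 2 A (vx m 1 4) (vx m 1 0)) : ∀ l, 1 ≤ l → l ≤ m → ∀ i < l,
    ¬ Merge 2 A (vx m l (4 + i)) (vx m l 0) := by
  intro l
  induction l with
  | zero => intro h; omega
  | succ l ih =>
    intro _ hlm i hi
    rcases Nat.eq_zero_or_pos l with h0 | h0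
    · subst h0
      have : i = 0 := by omega
      subst this
      exact h
    · have ih := ih h0 (by omega)
      have hw : wd m = 9 * m + 4 := rfl
      have e0 : nx m oc l 0 = (0, 0) := by
        unfold nx
        rw [if_neg (by omega), if_pos (by omega), if_neg (by omega)]
      rcases Nat.lt_or_ge i (l - 1) with h1 | h1
      · have e1 : nx m oc l (4 + i) = (4 + i, 4 + i) := by
          unfold nx
          rw [if_neg (by omega), if_pos (by omega), if_neg (by omega)]
        rcases NL_step hA (by omega) (by omega) (by omega) (ih i (by omega)) e1 e0 (by omega)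
          (by omega) (by omega) (by omega) with h | h
        · exact h.1
        · exact h.1
      · have e1 : nx m oc l (4 + (l - 1)) = (4 + (l - 1), 4 + l) := by
          unfold nx
          rw [if_neg (by omega), if_pos (by omega), if_pos (by omega)]
          congr 1
          omega
        have hi2 : i = l - 1 ∨ i = l := by omega
        rcases NL_step hA (by omega) (by omega) (by omega) (ih (l - 1) (by omega)) e1 e0 (by omega)
          (by omega) (by omega) (by omega) with h | h
        · rcases hi2 with rfl | rfl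
          · exact h.1
          · exact h.2
        · rcases hi2 with rfl | rfl
          · exact h.1
          · exact h.2

/-- a literal of every clause is tested -/
theorem tested (hA : IsColoring (inst m oc) A)
    (h : ¬ Merge 2 A (vx m 1 4) (vx m 1 0)) {j : ℕ} (hj : j < m) :
    ∃ k < 3, ¬ Merge 2 A (vx m (m + 2) (4 + (3 * j + k))) (vx m (m + 2) 0) := by
  have hw : wd m = 9 * m + 4 := rfl
  have h1 := options hA h m (by omega) le_rfl j hj
  have e1 : nx m oc m (4 + j) = (4 + 3 * j, 5 + 3 * j) := by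
    unfold nx
    rw [if_neg (by omega), if_neg (by omega), if_pos rfl, if_neg (by omega)]
    congr 1 <;> omega
  have e2 : nx m oc m 0 = (0, 1) := by
    unfold nx
    rw [if_neg (by omega), if_neg (by omega), if_pos rfl, if_pos (by omega)]
  have e3 : nx m oc (m + 1) 0 = (0, 1) := by
    unfold nx
    rw [if_neg (by omega), if_neg (by omega), if_neg (by omega), if_pos rfl, if_pos rfl]
  have e4 : nx m oc (m + 1) (4 + 3 * j) = (4 + 3 * j, 2) := by
    unfold nx
    rw [if_neg (by omega), if_neg (by omega), if_neg (by omega), if_pos rfl, if_neg (by omega),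
      if_neg (by omega), if_pos (by omega)]
  have e5 : nx m oc (m + 1) (5 + 3 * j) = (5 + 3 * j, 6 + 3 * j) := by
    unfold nx
    rw [if_neg (by omega), if_neg (by omega), if_neg (by omega), if_pos rfl, if_neg (by omega),
      if_neg (by omega), if_neg (by omega)]
    congr 1; omega
  rcases NL_step hA (by omega) (by omega) (by omega) h1 e1 e2 (by omega) (by omega) (by omega)
    (by omega) with ⟨h2, _⟩ | ⟨_, h2⟩
  · rcases NL_step hA (by omega) (by omega) (by omega) h2 e4 e3 (by omega) (by omega) (by omega)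
      (by omega) with ⟨h3, _⟩ | ⟨_, h3⟩
    · exact ⟨0, by omega, h3⟩
    · exfalso
      have e6 : nx m oc (m + 2) 2 = (3, 3) := by
        unfold nx
        rw [if_neg (by omega), if_neg (by omega), if_neg (by omega), if_neg (by omega), if_pos rfl,
          if_neg (by omega), if_neg (by omega), if_pos rfl]
      have e7 : nx m oc (m + 2) 0 = (0, 1) := by
        unfold nx
        rw [if_neg (by omega), if_neg (by omega), if_neg (by omega), if_neg (by omega), if_pos rfl,
          if_pos rfl]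
      have e8 : nx m oc (m + 3) 3 = (0, 1) := by
        unfold nx
        rw [if_neg (by omega), if_neg (by omega), if_neg (by omega), if_neg (by omega),
          if_neg (by omega), if_pos rfl, if_neg (by omega), if_neg (by omega), if_pos (by omega)]
      have e9 : nx m oc (m + 3) 0 = (0, 0) := by
        unfold nx
        rw [if_neg (by omega), if_neg (by omega), if_neg (by omega), if_neg (by omega),
          if_neg (by omega), if_pos rfl, if_pos rfl]
      have h4 : ¬ Merge 2 A (vx m (m + 3) 3) (vx m (m + 3) 0) := by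
        rcases NL_step hA (by omega) (by omega) (by omega) h3 e6 e7 (by omega) (by omega)
          (by omega) (by omega) with h | h
        · exact h.1
        · exact h.2
      rcases NL_step hA (by omega) (by omega) (by omega) h4 e8 e9 (by omega) (by omega)
        (by omega) (by omega) with h | h
      · exact not_self h.1
      · exact not_self h.1
  · rcases NL_step hA (by omega) (by omega) (by omega) h2 e5 e3 (by omega) (by omega) (by omega)
      (by omega) with ⟨h3, _⟩ | ⟨_, h3⟩
    · refine ⟨1, by omega, ?_⟩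
      rw [show 4 + (3 * j + 1) = 5 + 3 * j by omega]; exact h3
    · refine ⟨2, by omega, ?_⟩
      rw [show 4 + (3 * j + 2) = 6 + 3 * j by omega]; exact h3

/-- a tested literal is true -/
theorem lit_true (hA : IsColoring (inst m oc) A) {k : ℕ} (hk : k < 3 * m)
    (hv : (oc k).2 < 3 * m)
    (h : ¬ Merge 2 A (vx m (m + 2) (4 + k)) (vx m (m + 2) 0)) :
    (¬ Merge 2 A (vx m (m + 4) 0) (vx m (m + 4) 1)) ∧
    (¬ Merge 2 A (vx m (m + 4) (4 + 3 * (oc k).2)) (vx m (m + 4) (if (oc k).1 then 0 else 1))) := by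
  have hw : wd m = 9 * m + 4 := rfl
  have e1 : nx m oc (m + 2) (4 + k) = (4 + 2 * k, 5 + 2 * k) := by
    unfold nx
    rw [if_neg (by omega), if_neg (by omega), if_neg (by omega), if_neg (by omega), if_pos rfl,
      if_neg (by omega), if_neg (by omega), if_neg (by omega)]
    congr 1 <;> omega
  have e2 : nx m oc (m + 2) 0 = (0, 1) := by
    unfold nx
    rw [if_neg (by omega), if_neg (by omega), if_neg (by omega), if_neg (by omega), if_pos rfl,
      if_pos rfl]
  have e3 : nx m oc (m + 3) 0 = (0, 0) := by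
    unfold nx
    rw [if_neg (by omega), if_neg (by omega), if_neg (by omega), if_neg (by omega),
      if_neg (by omega), if_pos rfl, if_pos rfl]
  have e4 : nx m oc (m + 3) 1 = (1, 1) := by
    unfold nx
    rw [if_neg (by omega), if_neg (by omega), if_neg (by omega), if_neg (by omega),
      if_neg (by omega), if_pos rfl, if_neg (by omega), if_pos rfl]
  have e5 : nx m oc (m + 3) (4 + 2 * k) = (4 + 3 * (oc k).2, 5 + 3 * k) := by
    unfold nx
    rw [if_neg (by omega), if_neg (by omega), if_neg (by omega), if_neg (by omega),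
      if_neg (by omega), if_pos rfl, if_neg (by omega), if_neg (by omega), if_neg (by omega),
      if_pos (by omega), show (4 + 2 * k - 4) / 2 = k by omega]
  have e6 : nx m oc (m + 3) (5 + 2 * k) = (if (oc k).1 then 0 else 1, 6 + 3 * k) := by
    unfold nx
    rw [if_neg (by omega), if_neg (by omega), if_neg (by omega), if_neg (by omega),
      if_neg (by omega), if_pos rfl, if_neg (by omega), if_neg (by omega), if_neg (by omega),
      if_neg (by omega), show (5 + 2 * k - 4) / 2 = k by omega]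
  rcases NL_step hA (by omega) (by omega) (by omega) h e1 e2 (by omega) (by omega) (by omega)
    (by omega) with ⟨h1, h2⟩ | ⟨h1, h2⟩
  · have h3 := NL_step hA (by omega) (by omega) (by omega) h1 e5 e3 (by omega) (by omega)
      (by omega) (by omega)
    have h4 := NL_step hA (by omega) (by omega) (by omega) h2 e6 e4 (by split_ifs <;> omega)
      (by omega) (by omega) (by omega)
    have h5 : ¬ Merge 2 A (vx m (m + 4) (4 + 3 * (oc k).2)) (vx m (m + 4) 0) := by
      rcases h3 with h | h <;> exact h.1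
    have h6 : ¬ Merge 2 A (vx m (m + 4) (if (oc k).1 then 0 else 1)) (vx m (m + 4) 1) := by
      rcases h4 with h | h <;> exact h.1
    cases hs : (oc k).1
    · rw [hs] at h6
      exact absurd (Merge.refl _ _ _) h6
    · rw [hs] at h6
      exact ⟨h6, h5⟩
  · have h3 := NL_step hA (by omega) (by omega) (by omega) h1 e5 e4 (by omega) (by omega)
      (by omega) (by omega)
    have h4 := NL_step hA (by omega) (by omega) (by omega) h2 e6 e3 (by split_ifs <;> omega)
      (by omega) (by omega) (by omega)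
    have h5 : ¬ Merge 2 A (vx m (m + 4) (4 + 3 * (oc k).2)) (vx m (m + 4) 1) := by
      rcases h3 with h | h <;> exact h.1
    have h6 : ¬ Merge 2 A (vx m (m + 4) (if (oc k).1 then 0 else 1)) (vx m (m + 4) 0) := by
      rcases h4 with h | h <;> exact h.1
    cases hs : (oc k).1
    · rw [hs] at h6
      exact ⟨fun h => h6 h.symm, h5⟩
    · rw [hs] at h6
      exact absurd (Merge.refl _ _ _) h6

theorem sat_of_root (hA : IsColoring (inst m oc) A) (hb : ∀ k < 3 * m, (oc k).2 < 3 * m)
    (h : ¬ Merge 2 A (vx m 1 4) (vx m 1 0)) :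
    ∃ τ : ℕ → Bool, ∀ j < m, ∃ k < 3, τ (oc (3 * j + k)).2 = (oc (3 * j + k)).1 := by
  classical
  have hw : wd m = 9 * m + 4 := rfl
  refine ⟨fun i => !decide ((step A (vx m (m + 4) (4 + 3 * i)) 0 = vx m (m + 5) 0) ↔
    (step A (vx m (m + 4) 0) 0 = vx m (m + 5) 0)), fun j hj => ?_⟩
  obtain ⟨k, hk, hk2⟩ := tested hA h hj
  refine ⟨k, hk, ?_⟩
  have hv := hb (3 * j + k) (by omega)
  obtain ⟨h1, h2⟩ := lit_true hA (by omega) hv hk2
  have c1 := N_color hA (by omega) (by omega) h1
  have c2 := N_color hA (by omega) (by split_ifs <;> omega) h2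
  cases hs : (oc (3 * j + k)).1
  · simp only [hs, Bool.false_eq_true, if_false] at c2
    simp only [Bool.not_eq_false', decide_eq_true_eq]
    tauto
  · simp only [hs, if_true] at c2
    simp only [Bool.not_eq_true', decide_eq_false_iff_not]
    tauto

/-! ### Every pair leads to the root pair -/

theorem walk1 (hm : 1 ≤ m) (hA : IsColoring (inst m oc) A) {v : ℕ} (hv : v < nv m) (a : ℕ)
    (ha : a < 2) (hl : v / wd m < m + 5) :
    step A v a < nv m ∧ step A v a / wd m = v / wd m + 1 := by
  have e := eq_vx m v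
  have hp := Nat.mod_lt v (wd_pos m)
  have h0 : g0 m oc v < nv m ∧ g0 m oc v / wd m = v / wd m + 1 := by
    refine ⟨(g_lt hm oc hv).1, ?_⟩
    conv_lhs => rw [e]
    rw [g0_vx oc hl hp, vx_div (cp_lt _ _)]
  have h1 : g1 m oc v < nv m ∧ g1 m oc v / wd m = v / wd m + 1 := by
    refine ⟨(g_lt hm oc hv).2, ?_⟩
    conv_lhs => rw [e]
    rw [g1_vx oc hl hp, vx_div (cp_lt _ _)]
  have ha2 : a = 0 ∨ a = 1 := by omega
  rcases step_cases hA hv with ⟨f0, f1⟩ | ⟨f0, f1⟩ <;> rcases ha2 with rfl | rfl
  · rw [f0]; exact h0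
  · rw [f1]; exact h1
  · rw [f0]; exact h1
  · rw [f1]; exact h0

/-- from the last level one can go to `vx m 0 0` and to `vx m 1 4` -/
theorem last_step (hA : IsColoring (inst m oc) A) {v : ℕ} (hv : v < nv m)
    (hl : v / wd m = m + 5) :
    (∃ a < 2, step A v a = vx m 0 0) ∧ (∃ a < 2, step A v a = vx m 1 4) ∧
      ∀ a < 2, step A v a = vx m 0 0 ∨ step A v a = vx m 1 4 := by
  have e := eq_vx m v
  rw [hl] at e
  have hp := Nat.mod_lt v (wd_pos m)
  have h0 : g0 m oc v = vx m 0 0 := by rw [e]; exact g0_last oc hp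
  have h1 : g1 m oc v = vx m 1 4 := by rw [e]; exact g1_last oc hp
  rcases step_cases hA hv with ⟨f0, f1⟩ | ⟨f0, f1⟩ <;> rw [h0] at * <;> rw [h1] at *
  · refine ⟨⟨0, by omega, f0⟩, ⟨1, by omega, f1⟩, fun a ha => ?_⟩
    have : a = 0 ∨ a = 1 := by omega
    rcases this with rfl | rfl
    · exact Or.inl f0
    · exact Or.inr f1
  · refine ⟨⟨1, by omega, f1⟩, ⟨0, by omega, f0⟩, fun a ha => ?_⟩
    have : a = 0 ∨ a = 1 := by omega
    rcases this with rfl | rfl
    · exact Or.inr f0
    · exact Or.inl f1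

theorem N_letter {p q a : ℕ} (ha : a < 2) (h : ¬ Merge 2 A p q) :
    ¬ Merge 2 A (step A p a) (step A q a) := fun h' => h (Merge.cons ha h')

theorem N_symm {p q : ℕ} (h : ¬ Merge 2 A p q) : ¬ Merge 2 A q p := fun h' => h h'.symm

/-- walking without reaching the end -/
theorem walk (hm : 1 ≤ m) (hA : IsColoring (inst m oc) A) : ∀ (s p q : ℕ), p < nv m → q < nv m →
    p / wd m + s ≤ m + 5 → q / wd m + s ≤ m + 5 → ¬ Merge 2 A p q →
    ∃ p' q', p' < nv m ∧ q' < nv m ∧ p' / wd m = p / wd m + s ∧ q' / wd m = q / wd m + s ∧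
      ¬ Merge 2 A p' q' := by
  intro s
  induction s with
  | zero => intro p q hp hq _ _ h; exact ⟨p, q, hp, hq, rfl, rfl, h⟩
  | succ s ih =>
    intro p q hp hq h1 h2 h
    obtain ⟨h3, h4⟩ := walk1 hm hA hp 0 (by omega) (by omega)
    obtain ⟨h5, h6⟩ := walk1 hm hA hq 0 (by omega) (by omega)
    obtain ⟨p', q', h7, h8, h9, h10, h11⟩ := ih _ _ h3 h5 (by omega) (by omega)
      (N_letter (by omega) h)
    exact ⟨p', q', h7, h8, by omega, by omega, h11⟩

theorem root_of_diff (hm : 1 ≤ m) (hA : IsColoring (inst m oc) A) : ∀ (D p q : ℕ), 1 ≤ D →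
    p < nv m → q < nv m → p / wd m = m + 5 → q / wd m + D = m + 5 → ¬ Merge 2 A p q →
    ¬ Merge 2 A (vx m 1 4) (vx m 1 0) := by
  have hw4 : 4 < wd m := by unfold wd; omega
  have l0 : vx m 0 0 / wd m = 0 := vx_div (by omega)
  have l1 : vx m 1 4 / wd m = 1 := vx_div hw4
  have n0 : vx m 0 0 < nv m := vx_lt (by omega) (by omega)
  have n1 : vx m 1 4 < nv m := vx_lt (by omega) hw4
  intro D
  induction D with
  | zero => intro p q h; omega
  | succ D ih =>
    intro p q _ hp hq h1 h2 h
    obtain ⟨⟨a, ha, hpa⟩, _, _⟩ := last_step hA hp h1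
    obtain ⟨h3, h4⟩ := walk1 hm hA hq a ha (by omega)
    have h5 := N_letter ha h
    rw [hpa] at h5
    have z0 := Nat.zero_le (q / wd m)
    have z1 := Nat.zero_le (step A q a / wd m)
    -- walk until the second token is at the last level
    obtain ⟨p2, q2, g1', g2, g3, g4, g5⟩ := walk hm hA D (vx m 0 0) (step A q a) n0 h3
      (by omega) (by omega) h5
    obtain ⟨_, ⟨b, hb, hqb⟩, _⟩ := last_step hA g2 (by omega)
    have h6 := N_letter hb g5
    rw [hqb] at h6
    rcases Nat.eq_zero_or_pos D with h0 | h0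
    · subst h0
      -- `p2` is at level 0
      have e0 : ∀ v, v < nv m → v / wd m = 0 → step A v b = vx m 1 0 := by
        intro v hv hv0
        have hvx := eq_vx m v
        rw [hv0] at hvx
        have hpm := Nat.mod_lt v (wd_pos m)
        have enx : nx m oc 0 (v % wd m) = (0, 0) := by unfold nx; rw [if_pos rfl]
        have z0 : g0 m oc v = vx m 1 0 := by
          rw [hvx, g0_vx oc (by omega) hpm, enx, cp_eq (by omega)]
        have z1 : g1 m oc v = vx m 1 0 := by
          rw [hvx, g1_vx oc (by omega) hpm, enx, cp_eq (by omega)]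
        have hb2 : b = 0 ∨ b = 1 := by omega
        rcases step_cases hA hv with ⟨f0, f1⟩ | ⟨f0, f1⟩ <;> rcases hb2 with rfl | rfl
        · rw [f0, z0]
        · rw [f1, z1]
        · rw [f0, z1]
        · rw [f1, z0]
      rw [e0 p2 g1' (by omega)] at h6
      exact N_symm h6
    · -- `p2` is at level `D ≥ 1`
      have hp2 : p2 / wd m < m + 5 := by omega
      obtain ⟨k1, k2⟩ := walk1 hm hA g1' b hb hp2
      obtain ⟨p3, q3, u1, u2, u3, u4, u5⟩ := walk hm hA (m + 5 - (D + 1)) (step A p2 b)
        (vx m 1 4) k1 n1 (by omega) (by omega) h6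
      exact ih p3 q3 h0 u1 u2 (by omega) (by omega) u5

theorem root_of_lt (hm : 1 ≤ m) (hA : IsColoring (inst m oc) A) {p q : ℕ} (hp : p < nv m)
    (hq : q < nv m) (hlt : q / wd m < p / wd m) (h : ¬ Merge 2 A p q) :
    ¬ Merge 2 A (vx m 1 4) (vx m 1 0) := by
  have h1 := lev_le hp
  obtain ⟨p2, q2, u1, u2, u3, u4, u5⟩ := walk hm hA (m + 5 - p / wd m) p q hp hq (by omega)
    (by omega) h
  exact root_of_diff hm hA (p / wd m - q / wd m) p2 q2 (by omega) u1 u2 (by omega) (by omega) u5

theorem root_of_any (hm : 1 ≤ m) (hA : IsColoring (inst m oc) A) {p q : ℕ} (hp : p < nv m)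
    (hq : q < nv m) (h : ¬ Merge 2 A p q) : ¬ Merge 2 A (vx m 1 4) (vx m 1 0) := by
  have hw4 : 4 < wd m := by unfold wd; omega
  rcases Nat.lt_trichotomy (p / wd m) (q / wd m) with h1 | h1 | h1
  · exact root_of_lt hm hA hq hp h1 (N_symm h)
  · have h2 := lev_le hp
    obtain ⟨p2, q2, u1, u2, u3, u4, u5⟩ := walk hm hA (m + 5 - p / wd m) p q hp hq (by omega)
      (by omega) h
    obtain ⟨_, _, c1⟩ := last_step hA u1 (by omega)
    obtain ⟨_, _, c2⟩ := last_step hA u2 (by omega)
    have h3 := N_letter (a := 0) (by omega) u5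
    have l0 : vx m 0 0 / wd m = 0 := vx_div (by omega)
    have l1 : vx m 1 4 / wd m = 1 := vx_div hw4
    have n0 : vx m 0 0 < nv m := vx_lt (by omega) (by omega)
    have n1 : vx m 1 4 < nv m := vx_lt (by omega) hw4
    rcases c1 0 (by omega) with e1 | e1 <;> rcases c2 0 (by omega) with e2 | e2 <;>
      rw [e1, e2] at h3
    · exact absurd (Merge.refl _ _ _) h3
    · exact root_of_lt hm hA n1 n0 (by omega) (N_symm h3)
    · exact root_of_lt hm hA n1 n0 (by omega) h3
    · exact absurd (Merge.refl _ _ _) h3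
  · exact root_of_lt hm hA hp hq h1 h

/-- if a colouring is not synchronizing, the formula is satisfiable -/
theorem sat_of_not_sync (hm : 1 ≤ m) (hb : ∀ k < 3 * m, (oc k).2 < 3 * m)
    (hA : IsColoring (inst m oc) A) (h : ¬ Sync 2 A) :
    ∃ τ : ℕ → Bool, ∀ j < m, ∃ k < 3, τ (oc (3 * j + k)).2 = (oc (3 * j + k)).1 := by
  rw [sync_iff (inst_reg hm oc) hA, inst_length] at h
  push Not at h
  obtain ⟨p, hp, q, hq, hpq⟩ := h
  exact sat_of_root hA hb (root_of_any hm hA hp hq hpq)

end sound

end Pool.Agent.NPC.Q230TS
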